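import Mathlib

set_option autoImplicit false

/-! # Counting consecutive members of a set of odd numbers by residues mod 4 -/

open Finset

namespace Pool.Agent.U736.TW

/-- `m` is the next element of `T` after `n` -/
def IsNext (T : Set ℕ) (n m : ℕ) : Prop := n < m ∧ m ∈ T ∧ ∀ k, n < k → k < m → k ∉ T

/-- the number of the elements `n ≤ x` of `T` with `n ≡ a (mod 4)` -/
noncomputable def cnt (T : Set ℕ) (a x : ℕ) : ℕ := {n : ℕ | n ∈ T ∧ n ≤ x ∧ n % 4 = a}.ncard

/-- the number of the elements `n ≤ x` of `T` with `n ≡ a (mod 4)` such that the next element of `T` is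
congruent to `b (mod 4)` -/
noncomputable def cntPair (T : Set ℕ) (a b x : ℕ) : ℕ :=
  {n : ℕ | n ∈ T ∧ n ≤ x ∧ n % 4 = a ∧ ∃ m, IsNext T n m ∧ m % 4 = b}.ncard

/-- the character mod 4 -/
def chi (n : ℕ) : ℝ := if n % 4 = 1 then 1 else if n % 4 = 3 then -1 else 0

lemma chi_abs (n : ℕ) : |chi n| ≤ 1 := by
  unfold chi
  split_ifs <;> simp

lemma chi_add_two (n : ℕ) : chi (n + 2) = - chi n := by
  unfold chi
  split_ifs <;> first | omega | simp

lemma chi_odd {n : ℕ} (h : n % 2 = 1) : chi n ^ 2 = 1 := by
  unfold chi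
  split_ifs with h1 h2
  · simp
  · simp
  · omega

/-- the sign of a class -/
noncomputable def sg (a : ℕ) : ℝ := if a = 1 then 1 else -1

lemma chi_ind {a n : ℕ} (ha : a = 1 ∨ a = 3) (h : n % 2 = 1) : (if n % 4 = a then (1 : ℝ) else 0) = (1 + sg a * chi n) / 2 := by
  have h1 : n % 4 = 1 ∨ n % 4 = 3 := by omega
  rcases h1 with h1 | h1 <;> rcases ha with rfl | rfl <;> simp [chi, sg, h1] <;> norm_num

open Classical in
/-- the indicator of `k + 1` -/
noncomputable def ind (T : Set ℕ) (k : ℕ) : ℝ := if k + 1 ∈ T then 1 else 0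

/-- the class of the last element of `T` up to `k` -/
noncomputable def st (T : Set ℕ) : ℕ → ℝ
  | 0 => 0
  | k + 1 => ind T k * chi (k + 1) + (1 - ind T k) * st T k

lemma ind_cases (T : Set ℕ) (k : ℕ) : (k + 1 ∈ T ∧ ind T k = 1) ∨ (k + 1 ∉ T ∧ ind T k = 0) := by
  unfold ind
  by_cases h : k + 1 ∈ T
  · left; exact ⟨h, if_pos h⟩
  · right; exact ⟨h, if_neg h⟩

lemma st_step (T : Set ℕ) (k : ℕ) : st T (k + 1) - st T k = ind T k * (chi (k + 1) - st T k) := by
  rw [st]
  ring

/-- the meaning of `st` -/
lemma st_inv {T : Set ℕ} (hT : ∀ n ∈ T, n % 2 = 1) (k : ℕ) :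
    (st T k = 0 ∧ ∀ n ≤ k, n ∉ T) ∨
    (∃ l ≤ k, l ∈ T ∧ (∀ j, l < j → j ≤ k → j ∉ T) ∧ st T k = chi l) := by
  induction k with
  | zero =>
    left
    refine ⟨rfl, fun n hn h => ?_⟩
    have := hT n h
    omega
  | succ k ih =>
    rcases ind_cases T k with ⟨h1, h2⟩ | ⟨h1, h2⟩
    · right
      refine ⟨k + 1, le_rfl, h1, fun j hj1 hj2 => by omega, ?_⟩
      rw [st, h2]
      ring
    · have h3 : st T (k + 1) = st T k := by
        rw [st, h2]
        ring
      rcases ih with ⟨g1, g2⟩ | ⟨l, g1, g2, g3, g4⟩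
      · left
        refine ⟨h3.trans g1, fun n hn => ?_⟩
        rcases Nat.lt_or_ge n (k + 1) with h | h
        · exact g2 n (by omega)
        · rw [show n = k + 1 by omega]
          exact h1
      · right
        refine ⟨l, by omega, g2, fun j hj1 hj2 => ?_, h3.trans g4⟩
        rcases Nat.lt_or_ge j (k + 1) with h | h
        · exact g3 j hj1 (by omega)
        · rw [show j = k + 1 by omega]
          exact h1

lemma st_cases {T : Set ℕ} (hT : ∀ n ∈ T, n % 2 = 1) (k : ℕ) : st T k = 0 ∨ st T k ^ 2 = 1 := by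
  rcases st_inv hT k with ⟨h, _⟩ | ⟨l, _, h2, _, h4⟩
  · exact Or.inl h
  · right
    rw [h4]
    exact chi_odd (hT l h2)

lemma st_abs {T : Set ℕ} (hT : ∀ n ∈ T, n % 2 = 1) (k : ℕ) : |st T k| ≤ 1 := by
  rcases st_cases hT k with h | h
  · rw [h, abs_zero]; exact zero_le_one
  · exact (sq_le_one_iff_abs_le_one _).1 h.le

open Classical in
/-- the pairs with second member at most `x` -/
noncomputable def UU (T : Set ℕ) (a b x : ℕ) : Finset ℕ :=
  (range (x + 1)).filter fun n => n ∈ T ∧ n % 4 = a ∧ ∃ m, m ≤ x ∧ IsNext T n m ∧ m % 4 = b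

lemma next_unique {T : Set ℕ} {n m m' : ℕ} (h : IsNext T n m) (h' : IsNext T n m') : m = m' := by
  rcases lt_trichotomy m m' with g | g | g
  · exact absurd h.2.1 (h'.2.2 m h.1 g)
  · exact g
  · exact absurd h'.2.1 (h.2.2 m' h'.1 g)

lemma UU_card {T : Set ℕ} (hT : ∀ n ∈ T, n % 2 = 1) {a b : ℕ} (ha : a = 1 ∨ a = 3) (hb : b = 1 ∨ b = 3) (x : ℕ) :
    ((UU T a b x).card : ℝ) = ∑ k ∈ range x, ind T k * ((1 + sg b * chi (k + 1)) / 2) * ((st T k ^ 2 + sg a * st T k) / 2) := by
  classical
  induction x with
  | zero =>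
    rw [range_zero, sum_empty]
    have : UU T a b 0 = ∅ := by
      unfold UU
      rw [filter_eq_empty_iff]
      rintro n hn ⟨_, _, m, hm, h1, _⟩
      have := h1.1
      omega
    rw [this]
    simp
  | succ x ih =>
    rw [sum_range_succ, ← ih]
    rcases ind_cases T x with ⟨h1, h2⟩ | ⟨h1, h2⟩
    · rw [h2, one_mul, ← chi_ind hb (hT _ h1)]
      rcases st_inv hT x with ⟨g1, g2⟩ | ⟨l, g1, g2, g3, g4⟩
      · -- no element before
        have e1 : UU T a b (x + 1) = UU T a b x := by
          unfold UU
          ext n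
          simp only [mem_filter, mem_range]
          constructor
          · rintro ⟨k1, k2, k3, m, k4, k5, k6⟩
            have := k5.1
            exact absurd k2 (g2 n (by omega))
          · rintro ⟨k1, k2, k3, m, k4, k5, k6⟩
            exact absurd k2 (g2 n (by omega))
        rw [e1, g1]
        simp
      · have hnext : IsNext T l (x + 1) := ⟨by omega, h1, fun k k1 k2 => g3 k k1 (by omega)⟩
        have hl : l ∉ UU T a b x := by
          unfold UU
          simp only [mem_filter, mem_range, not_and]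
          rintro _ _ _ ⟨m, k1, k2, _⟩
          exact g3 m k2.1 k1 k2.2.1
        have hstep : ∀ n, n ∈ UU T a b (x + 1) ↔ n ∈ UU T a b x ∨ (n = l ∧ l % 4 = a ∧ (x + 1) % 4 = b) := by
          intro n
          unfold UU
          simp only [mem_filter, mem_range]
          constructor
          · rintro ⟨k1, k2, k3, m, k4, k5, k6⟩
            rcases Nat.lt_or_ge m (x + 1) with h | h
            · left
              exact ⟨by have := k5.1; omega, k2, k3, m, by omega, k5, k6⟩
            · right
              have hm : m = x + 1 := by omega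
              subst hm
              have hnl : n = l := by
                rcases lt_trichotomy n l with g | g | g
                · exact absurd g2 (k5.2.2 l g (by omega))
                · exact g
                · exact absurd k2 (g3 n g (by have := k5.1; omega))
              exact ⟨hnl, hnl ▸ k3, k6⟩
          · rintro (⟨k1, k2, k3, m, k4, k5, k6⟩ | ⟨rfl, k2, k3⟩)
            · exact ⟨by omega, k2, k3, m, by omega, k5, k6⟩
            · exact ⟨by omega, g2, k2, x + 1, le_rfl, hnext, k3⟩
        have e2 : (st T x ^ 2 + sg a * st T x) / 2 = if l % 4 = a then (1 : ℝ) else 0 := by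
          rw [chi_ind ha (hT l g2), g4, chi_odd (hT l g2)]
        rw [e2]
        by_cases c1 : l % 4 = a
        · by_cases c2 : (x + 1) % 4 = b
          · have e3 : UU T a b (x + 1) = insert l (UU T a b x) := by
              ext n
              rw [hstep, mem_insert]
              constructor
              · rintro (h | h)
                · exact Or.inr h
                · exact Or.inl h.1
              · rintro (h | h)
                · exact Or.inr ⟨h, c1, c2⟩
                · exact Or.inl h
            rw [e3, card_insert_of_notMem hl, if_pos c1, if_pos c2]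
            push_cast
            ring
          · have e3 : UU T a b (x + 1) = UU T a b x := by
              ext n
              rw [hstep]
              constructor
              · rintro (h | h)
                · exact h
                · exact absurd h.2.2 c2
              · intro h
                exact Or.inl h
            rw [e3, if_neg c2]
            ring
        · have e3 : UU T a b (x + 1) = UU T a b x := by
            ext n
            rw [hstep]
            constructor
            · rintro (h | h)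
              · exact h
              · exact absurd h.2.1 c1
            · intro h
              exact Or.inl h
          rw [e3, if_neg c1]
          ring
    · rw [h2, zero_mul, zero_mul, add_zero]
      have e1 : UU T a b (x + 1) = UU T a b x := by
        unfold UU
        ext n
        simp only [mem_filter, mem_range]
        constructor
        · rintro ⟨k1, k2, k3, m, k4, k5, k6⟩
          have hm : m ≠ x + 1 := by
            rintro rfl
            exact h1 k5.2.1
          exact ⟨by have := k5.1; omega, k2, k3, m, by omega, k5, k6⟩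
        · rintro ⟨k1, k2, k3, m, k4, k5, k6⟩
          exact ⟨by omega, k2, k3, m, by omega, k5, k6⟩
      rw [e1]

open Classical in
lemma cntPair_near (T : Set ℕ) (a b x : ℕ) :
    (UU T a b x).card ≤ cntPair T a b x ∧ cntPair T a b x ≤ (UU T a b x).card + 1 := by
  set V : Finset ℕ := (range (x + 1)).filter fun n => n ∈ T ∧ n % 4 = a ∧ ∃ m, IsNext T n m ∧ m % 4 = b with hV
  have h1 : cntPair T a b x = V.card := by
    unfold cntPair
    rw [← Set.ncard_coe_finset]
    congr 1
    ext n
    simp only [hV, Set.mem_ofPred_eq, coe_filter, mem_range]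
    constructor
    · rintro ⟨k1, k2, k3, k4⟩
      exact ⟨by omega, k1, k3, k4⟩
    · rintro ⟨k1, k2, k3, k4⟩
      exact ⟨k2, by omega, k3, k4⟩
  have h2 : UU T a b x ⊆ V := by
    intro n hn
    unfold UU at hn
    simp only [mem_filter, hV] at hn ⊢
    obtain ⟨k1, k2, k3, m, k4, k5, k6⟩ := hn
    exact ⟨k1, k2, k3, m, k5, k6⟩
  have h3 : (V \ UU T a b x).card ≤ 1 := by
    rw [card_le_one]
    have key : ∀ n n' : ℕ, n ∈ V \ UU T a b x → n' ∈ V \ UU T a b x → ¬ n < n' := by
      intro n n' hn hn' hlt
      rw [mem_sdiff] at hn hn'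
      obtain ⟨hn1, hn2⟩ := hn
      simp only [hV, mem_filter, mem_range] at hn1 hn'
      obtain ⟨k1, k2, k3, m, k5, k6⟩ := hn1
      apply hn2
      unfold UU
      simp only [mem_filter, mem_range]
      refine ⟨k1, k2, k3, m, ?_, k5, k6⟩
      by_contra hc
      exact k5.2.2 n' hlt (by omega) hn'.1.2.1
    intro n hn n' hn'
    rcases lt_trichotomy n n' with g | g | g
    · exact absurd g (key n n' hn hn')
    · exact g
    · exact absurd g (key n' n hn' hn)
  rw [h1]
  refine ⟨card_le_card h2, ?_⟩
  have h4 := card_sdiff_add_card_eq_card h2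
  omega

/-- the number of elements in a class -/
lemma cnt_eq {T : Set ℕ} (hT : ∀ n ∈ T, n % 2 = 1) {a : ℕ} (ha : a = 1 ∨ a = 3) (x : ℕ) :
    (cnt T a x : ℝ) = (∑ k ∈ range x, ind T k + sg a * ∑ k ∈ range x, ind T k * chi (k + 1)) / 2 := by
  classical
  have h1 : cnt T a x = ((range x).filter fun k => k + 1 ∈ T ∧ (k + 1) % 4 = a).card := by
    unfold cnt
    have : {n : ℕ | n ∈ T ∧ n ≤ x ∧ n % 4 = a} =
        ((((range x).filter fun k => k + 1 ∈ T ∧ (k + 1) % 4 = a).image (· + 1) : Finset ℕ) : Set ℕ) := by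
      ext n
      simp only [Set.mem_ofPred_eq, coe_image, coe_filter, mem_range, Set.mem_image]
      constructor
      · rintro ⟨k1, k2, k3⟩
        have := hT n k1
        refine ⟨n - 1, ⟨by omega, ?_, ?_⟩, by omega⟩
        · rw [show n - 1 + 1 = n by omega]; exact k1
        · rw [show n - 1 + 1 = n by omega]; exact k3
      · rintro ⟨k, ⟨k1, k2, k3⟩, rfl⟩
        exact ⟨k2, by omega, k3⟩
    rw [this, Set.ncard_coe_finset, card_image_of_injective _ (add_left_injective 1)]
  rw [h1, mul_sum, ← sum_add_distrib, sum_div, card_filter]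
  push_cast
  refine sum_congr rfl fun k _ => ?_
  rcases ind_cases T k with ⟨g1, g2⟩ | ⟨g1, g2⟩
  · rw [g2]
    have h3 := chi_ind ha (hT _ g1)
    by_cases h4 : (k + 1) % 4 = a
    · rw [if_pos ⟨g1, h4⟩]
      rw [if_pos h4] at h3
      linarith
    · rw [if_neg (fun h => h4 h.2)]
      rw [if_neg h4] at h3
      linarith
  · rw [g2, if_neg (fun h => g1 h.1)]
    ring

/-- the number of consecutive pairs in given classes -/
lemma cntPair_formula {T : Set ℕ} (hT : ∀ n ∈ T, n % 2 = 1) {a b : ℕ} (ha : a = 1 ∨ a = 3) (hb : b = 1 ∨ b = 3) (x : ℕ) :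
    |(cntPair T a b x : ℝ) - (∑ k ∈ range x, ind T k + (sg a + sg b) * ∑ k ∈ range x, ind T k * chi (k + 1) +
      sg a * sg b * ∑ k ∈ range x, ind T k * (chi (k + 1) * st T k)) / 4| ≤ 2 := by
  have h1 := cntPair_near T a b x
  have h2 := UU_card hT ha hb x
  have hsa : |sg a| = 1 := by unfold sg; split_ifs <;> simp
  have hsb : |sg b| = 1 := by unfold sg; split_ifs <;> simp
  -- the telescoping sums
  have t1 : ∑ k ∈ range x, ind T k * (1 - st T k ^ 2) = st T x ^ 2 := by
    have : ∀ k, ind T k * (1 - st T k ^ 2) = st T (k + 1) ^ 2 - st T k ^ 2 := by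
      intro k
      rcases ind_cases T k with ⟨g1, g2⟩ | ⟨g1, g2⟩
      · rw [st, g2]
        have := chi_odd (hT _ g1)
        rw [one_mul, sub_self, zero_mul, add_zero, one_mul, this]
      · rw [st, g2]
        ring
    rw [sum_congr rfl fun k _ => this k, sum_range_sub (fun k => st T k ^ 2)]
    simp [st]
  have t2 : ∑ k ∈ range x, ind T k * (chi (k + 1) - st T k) = st T x := by
    rw [sum_congr rfl fun k _ => (st_step T k).symm, sum_range_sub]
    simp [st]
  have hst := st_abs hT x
  have t3 : |∑ k ∈ range x, ind T k * chi (k + 1) * (1 - st T k ^ 2)| ≤ 1 := by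
    refine (abs_sum_le_sum_abs _ _).trans ?_
    have : ∑ k ∈ range x, |ind T k * chi (k + 1) * (1 - st T k ^ 2)| ≤ ∑ k ∈ range x, ind T k * (1 - st T k ^ 2) := by
      refine sum_le_sum fun k _ => ?_
      have q1 : 0 ≤ 1 - st T k ^ 2 := by
        have := st_abs hT k
        rw [← sq_abs]
        nlinarith [abs_nonneg (st T k)]
      have q2 : 0 ≤ ind T k := by
        rcases ind_cases T k with ⟨_, g2⟩ | ⟨_, g2⟩ <;> rw [g2] <;> norm_num
      rw [abs_mul, abs_mul, abs_of_nonneg q1, abs_of_nonneg q2]
      refine mul_le_mul_of_nonneg_right ?_ q1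
      calc ind T k * |chi (k + 1)| ≤ ind T k * 1 := mul_le_mul_of_nonneg_left (chi_abs _) q2
        _ = _ := mul_one _
    refine this.trans ?_
    rw [t1, ← sq_abs]
    nlinarith [abs_nonneg (st T x)]
  have e1 : ((UU T a b x).card : ℝ) = (∑ k ∈ range x, ind T k + (sg a + sg b) * ∑ k ∈ range x, ind T k * chi (k + 1) +
      sg a * sg b * ∑ k ∈ range x, ind T k * (chi (k + 1) * st T k)) / 4 -
      (∑ k ∈ range x, ind T k * (1 - st T k ^ 2) + sg a * ∑ k ∈ range x, ind T k * (chi (k + 1) - st T k) +
        sg b * ∑ k ∈ range x, ind T k * chi (k + 1) * (1 - st T k ^ 2)) / 4 := by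
    rw [h2]
    simp only [mul_sum, ← sum_add_distrib, sum_div, ← sum_sub_distrib]
    refine sum_congr rfl fun k _ => ?_
    ring
  rw [t1, t2] at e1
  have c1 : ((UU T a b x).card : ℝ) ≤ cntPair T a b x := by exact_mod_cast h1.1
  have c2 : (cntPair T a b x : ℝ) ≤ (UU T a b x).card + 1 := by exact_mod_cast h1.2
  have c3 : |sg a * st T x| ≤ 1 := by rw [abs_mul, hsa, one_mul]; exact hst
  have c4 : |sg b * ∑ k ∈ range x, ind T k * chi (k + 1) * (1 - st T k ^ 2)| ≤ 1 := by
    rw [abs_mul, hsb, one_mul]; exact t3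
  have c5 : st T x ^ 2 ≤ 1 := by
    rw [← sq_abs]
    nlinarith [abs_nonneg (st T x)]
  have c6 : 0 ≤ st T x ^ 2 := sq_nonneg _
  rw [abs_le] at c3 c4 ⊢
  constructor <;> linarith [c3.1, c3.2, c4.1, c4.2]

end Pool.Agent.U736.TW
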