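import Mathlib

set_option autoImplicit false

/-! # Logarithmic scales -/

open Filter Asymptotics
open scoped Topology

namespace Pool.Agent.U736.TW

/-- the logarithm, shifted so that it is always larger than one -/
noncomputable def Lg (m : ℕ) : ℝ := Real.log ((m : ℝ) + 3)

lemma one_lt_Lg (m : ℕ) : 1 < Lg m := by
  unfold Lg
  rw [Real.lt_log_iff_exp_lt (by positivity)]
  have h1 := Real.exp_one_lt_d9
  have h2 : (0 : ℝ) ≤ m := Nat.cast_nonneg m
  linarith

lemma Lg_pos (m : ℕ) : 0 < Lg m := zero_lt_one.trans (one_lt_Lg m)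

lemma Lg_mono {m n : ℕ} (h : m ≤ n) : Lg m ≤ Lg n := by
  unfold Lg
  apply Real.log_le_log (by positivity)
  have : (m : ℝ) ≤ n := by exact_mod_cast h
  linarith

lemma y_tendsto : Tendsto (fun N : ℕ => (N : ℝ) + 3) atTop atTop :=
  tendsto_atTop_add_const_right _ _ tendsto_natCast_atTop_atTop

lemma Lg_tendsto : Tendsto Lg atTop atTop := Real.tendsto_log_atTop.comp y_tendsto

/-- the scale `N / (log N) ^ k` -/
noncomputable def sc (k : ℕ) (N : ℕ) : ℝ := ((N : ℝ) + 3) / Lg N ^ k

lemma sc_pos (k N : ℕ) : 0 < sc k N := by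
  unfold sc
  have := Lg_pos N
  positivity

/-- the powers `1 / (log m) ^ k` -/
noncomputable def pw (k : ℕ) (m : ℕ) : ℝ := (Lg m ^ k)⁻¹

lemma pw_pos (k m : ℕ) : 0 < pw k m := by
  unfold pw
  have := Lg_pos m
  positivity

lemma pw_le_one (k m : ℕ) : pw k m ≤ 1 := by
  unfold pw
  exact inv_le_one_of_one_le₀ (one_le_pow₀ (one_lt_Lg m).le)

lemma pw_anti (k : ℕ) : Antitone (pw k) := by
  intro m n h
  unfold pw
  have h1 := Lg_pos m
  exact inv_anti₀ (by positivity) (pow_le_pow_left₀ h1.le (Lg_mono h) k)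

lemma pw_mul (j k m : ℕ) : pw j m * pw k m = pw (j + k) m := by
  unfold pw
  rw [pow_add, mul_inv]

lemma pw_le {j k : ℕ} (h : j ≤ k) (m : ℕ) : pw k m ≤ pw j m := by
  unfold pw
  have h1 := Lg_pos m
  exact inv_anti₀ (by positivity) (pow_le_pow_right₀ (one_lt_Lg m).le h)

lemma pw_tendsto {k : ℕ} (hk : k ≠ 0) : Tendsto (pw k) atTop (𝓝 0) := by
  unfold pw
  exact tendsto_inv_atTop_zero.comp ((tendsto_pow_atTop hk).comp Lg_tendsto)

lemma pw_little (k : ℕ) : pw (k + 1) =o[atTop] pw k := by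
  rw [isLittleO_iff_tendsto (fun m h => absurd h (pw_pos k m).ne')]
  have h1 : (fun m => pw (k + 1) m / pw k m) = pw 1 := by
    funext m
    rw [← pw_mul k 1 m, mul_div_cancel_left₀ _ (pw_pos k m).ne']
  rw [h1]
  exact pw_tendsto one_ne_zero

lemma sc_little (k : ℕ) : sc (k + 1) =o[atTop] sc k := by
  rw [isLittleO_iff_tendsto (fun m h => absurd h (sc_pos k m).ne')]
  have h1 : (fun m => sc (k + 1) m / sc k m) = pw 1 := by
    funext m
    unfold sc pw
    have := Lg_pos m
    field_simp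
    ring
  rw [h1]
  exact pw_tendsto one_ne_zero

lemma sc_bigO {j k : ℕ} (h : j ≤ k) : sc k =O[atTop] sc j := by
  refine IsBigO.of_bound 1 (Eventually.of_forall fun N => ?_)
  rw [Real.norm_eq_abs, Real.norm_eq_abs, abs_of_pos (sc_pos k N), abs_of_pos (sc_pos j N), one_mul]
  have h1 := pw_le h N
  unfold sc
  unfold pw at h1
  rw [div_eq_mul_inv, div_eq_mul_inv]
  exact mul_le_mul_of_nonneg_left h1 (by positivity)

lemma rpow_little (k : ℕ) {s : ℝ} (hs : s < 1) : (fun N : ℕ => ((N : ℝ) + 3) ^ s) =o[atTop] sc k := by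
  rw [isLittleO_iff_tendsto (fun m h => absurd h (sc_pos k m).ne')]
  have h1 := (isLittleO_log_rpow_rpow_atTop (k : ℝ) (show 0 < 1 - s by linarith)).tendsto_div_nhds_zero
  have h2 := h1.comp y_tendsto
  refine h2.congr fun N => ?_
  simp only [Function.comp]
  unfold sc Lg
  have h3 : (0 : ℝ) < (N : ℝ) + 3 := by positivity
  rw [Real.rpow_natCast, Real.rpow_sub h3, Real.rpow_one]
  have h4 := Lg_pos N
  unfold Lg at h4
  have h5 := Real.rpow_pos_of_pos h3 s
  field_simp

lemma const_little (k : ℕ) (C : ℝ) : (fun _ : ℕ => C) =o[atTop] sc k := by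
  have h1 := rpow_little k (s := 0) (by norm_num)
  simp only [Real.rpow_zero] at h1
  have h2 := h1.const_mul_left C
  simpa using h2

lemma bdd_little (k : ℕ) {u : ℕ → ℝ} (C : ℝ) (h : ∀ N, |u N| ≤ C) : u =o[atTop] sc k := by
  refine IsBigO.trans_isLittleO ?_ (const_little k C)
  refine IsBigO.of_bound 1 (Eventually.of_forall fun N => ?_)
  rw [Real.norm_eq_abs, Real.norm_eq_abs, one_mul]
  exact (h N).trans (le_abs_self C)

lemma sc_tendsto (k : ℕ) : Tendsto (sc k) atTop atTop := by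
  have h1 := const_little k 1
  have h2 := (isLittleO_const_left.1 h1).resolve_left one_ne_zero
  refine h2.congr fun N => ?_
  simp only [Function.comp, Real.norm_eq_abs, abs_of_pos (sc_pos k N)]

/-- the sum of the powers -/
noncomputable def G (k N : ℕ) : ℝ := ∑ m ∈ Finset.range N, pw k m

lemma G_ge (k N : ℕ) : (N : ℝ) * pw k N ≤ G k N := by
  unfold G
  have h1 : ∑ m ∈ Finset.range N, pw k N ≤ ∑ m ∈ Finset.range N, pw k m :=
    Finset.sum_le_sum fun m hm => pw_anti k (Finset.mem_range.1 hm).le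
  rw [Finset.sum_const, Finset.card_range, nsmul_eq_mul] at h1
  exact h1

lemma sc_eq (k N : ℕ) : sc k N = ((N : ℝ) + 3) * pw k N := by
  unfold sc pw
  rw [div_eq_mul_inv]

lemma sc_le_G (k N : ℕ) (hN : 1 ≤ N) : sc k N ≤ 4 * G k N := by
  have h1 := G_ge k N
  have h2 : (1 : ℝ) ≤ N := by exact_mod_cast hN
  rw [sc_eq]
  have h3 := pw_pos k N
  nlinarith

lemma G_tendsto (k : ℕ) : Tendsto (G k) atTop atTop := by
  have h1 : Tendsto (fun N => (1 / 4) * sc k N) atTop atTop := (sc_tendsto k).const_mul_atTop (by norm_num)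
  refine tendsto_atTop_mono' _ ?_ h1
  filter_upwards [eventually_ge_atTop 1] with N hN
  have := sc_le_G k N hN
  linarith

lemma Lg_step (m : ℕ) : Lg (m + 1) - Lg m ≤ 1 / ((m : ℝ) + 3) := by
  unfold Lg
  have h3 : (0 : ℝ) < (m : ℝ) + 3 := by positivity
  rw [← Real.log_div (by positivity) (by positivity)]
  refine (Real.log_le_sub_one_of_pos (by positivity)).trans (le_of_eq ?_)
  push_cast
  field_simp
  ring

lemma pw_step (k m : ℕ) : ((m : ℝ) + 3) * (pw k m - pw k (m + 1)) ≤ k * pw (k + 1) m := by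
  have h1 := Lg_pos m
  have h2 := Lg_mono (Nat.le_succ m)
  have h3 := Lg_step m
  set a := Lg m with ha
  set b := Lg (m + 1) with hb
  have hb0 : 0 < b := h1.trans_le h2
  have h4 : b ^ k - a ^ k ≤ k * b ^ k / b * (b - a) := by
    have h5 := one_add_mul_le_pow (a := a / b - 1) (by
      have : 0 ≤ a / b := by positivity
      linarith) k
    rw [add_sub_cancel, div_pow, le_div_iff₀ (by positivity)] at h5
    have h6 : (1 + (k : ℝ) * (a / b - 1)) * b ^ k = b ^ k - k * b ^ k / b * (b - a) := by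
      field_simp
      ring
    rw [h6] at h5
    linarith
  have h7 : pw k m - pw k (m + 1) = (b ^ k - a ^ k) * (pw k m * pw k (m + 1)) := by
    unfold pw
    rw [← ha, ← hb]
    field_simp
  have h8 : k * b ^ k / b * (b - a) * (pw k m * pw k (m + 1)) = k * (b - a) * (pw k m * b⁻¹) := by
    unfold pw
    rw [← ha, ← hb]
    field_simp
  have h9 : b⁻¹ ≤ pw 1 m := by
    unfold pw
    rw [pow_one, ← ha]
    exact inv_anti₀ h1 h2
  have p1 := pw_pos k m
  have p2 := pw_pos k (m + 1)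
  have p3 : (0 : ℝ) < (m : ℝ) + 3 := by positivity
  calc ((m : ℝ) + 3) * (pw k m - pw k (m + 1)) ≤ ((m : ℝ) + 3) * (k * b ^ k / b * (b - a) * (pw k m * pw k (m + 1))) := by
        rw [h7]
        exact mul_le_mul_of_nonneg_left (mul_le_mul_of_nonneg_right h4 (by positivity)) p3.le
    _ = ((m : ℝ) + 3) * (b - a) * (k * (pw k m * b⁻¹)) := by rw [h8]; ring
    _ ≤ 1 * (k * (pw k m * b⁻¹)) := by
        refine mul_le_mul_of_nonneg_right ?_ (by positivity)
        calc ((m : ℝ) + 3) * (b - a) ≤ ((m : ℝ) + 3) * (1 / ((m : ℝ) + 3)) := mul_le_mul_of_nonneg_left h3 p3.le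
          _ = 1 := by field_simp
    _ ≤ k * pw (k + 1) m := by
        rw [one_mul, ← pw_mul k 1 m]
        exact mul_le_mul_of_nonneg_left (mul_le_mul_of_nonneg_left h9 p1.le) (Nat.cast_nonneg k)

lemma sc_step (k m : ℕ) : |(sc k (m + 1) - sc k m) - pw k m| ≤ 2 * k * pw (k + 1) m := by
  have h1 : (sc k (m + 1) - sc k m) - pw k m = - (((m : ℝ) + 3) * (pw k m - pw k (m + 1)) + (pw k m - pw k (m + 1))) := by
    rw [sc_eq, sc_eq]
    push_cast
    ring
  have h2 := pw_step k m
  have h3 : 0 ≤ pw k m - pw k (m + 1) := sub_nonneg.2 (pw_anti k (Nat.le_succ m))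
  have h4 : (1 : ℝ) ≤ (m : ℝ) + 3 := by
    have : (0 : ℝ) ≤ m := Nat.cast_nonneg m
    linarith
  have h5 : pw k m - pw k (m + 1) ≤ ((m : ℝ) + 3) * (pw k m - pw k (m + 1)) := le_mul_of_one_le_left h3 h4
  rw [h1, abs_neg, abs_of_nonneg (by positivity)]
  linarith

lemma G_little (k : ℕ) : G (k + 1) =o[atTop] G k := by
  have := (pw_little k).sum_range (fun n => (pw_pos k n).le) (G_tendsto k)
  exact this

/-- the sum of the powers is asymptotic to the scale -/
lemma G_lim (k : ℕ) : Tendsto (fun N => G k N / sc k N) atTop (𝓝 1) := by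
  have h1 : (fun m => (sc k (m + 1) - sc k m) - pw k m) =o[atTop] pw k := by
    refine IsBigO.trans_isLittleO (g := pw (k + 1)) ?_ (pw_little k)
    refine IsBigO.of_bound (2 * k) (Eventually.of_forall fun m => ?_)
    rw [Real.norm_eq_abs, Real.norm_eq_abs, abs_of_pos (pw_pos (k + 1) m)]
    exact sc_step k m
  have h2 := h1.sum_range (fun n => (pw_pos k n).le) (G_tendsto k)
  have h3 : (fun N => ∑ m ∈ Finset.range N, ((sc k (m + 1) - sc k m) - pw k m)) = fun N => sc k N - sc k 0 - G k N := by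
    funext N
    rw [Finset.sum_sub_distrib, Finset.sum_range_sub]
    rfl
  rw [h3] at h2
  have h4 : (fun _ : ℕ => sc k 0) =o[atTop] G k := by
    rw [isLittleO_const_left]
    right
    exact tendsto_norm_atTop_atTop.comp (G_tendsto k)
  have h5 : (fun N => sc k N - G k N) =o[atTop] G k := by
    refine (h2.add h4).congr_left fun N => ?_
    ring
  have h6 : sc k ~[atTop] G k := h5
  have h7 := h6.symm
  rw [isEquivalent_iff_tendsto_one] at h7
  · exact h7
  · exact Eventually.of_forall fun N => (sc_pos k N).ne'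

lemma G_bigO (k : ℕ) : G k =O[atTop] sc k := by
  have h1 := (G_lim k).isBigO_one ℝ
  have h2 : (fun N => G k N / sc k N * sc k N) =O[atTop] fun N => (1 : ℝ) * sc k N := h1.mul (isBigO_refl _ _)
  refine (h2.congr_left fun N => ?_).congr_right fun N => one_mul _
  rw [div_mul_cancel₀ _ (sc_pos k N).ne']

/-- termwise small implies small sums -/
lemma sum_little (k : ℕ) {f : ℕ → ℝ} (hf : f =o[atTop] pw k) :
    (fun N => ∑ m ∈ Finset.range N, f m) =o[atTop] sc k :=
  (hf.sum_range (fun n => (pw_pos k n).le) (G_tendsto k)).trans_isBigO (G_bigO k)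

lemma sum_bigO (k : ℕ) {f : ℕ → ℝ} (hf : f =O[atTop] pw k) :
    (fun N => ∑ m ∈ Finset.range N, f m) =O[atTop] sc k := by
  classical
  obtain ⟨c, hc⟩ := hf.bound
  set f' : ℕ → ℝ := fun m => if |f m| ≤ c * pw k m then f m else 0 with hf'
  have h1 : (fun m => f m - f' m) =o[atTop] pw k := by
    refine (isLittleO_zero (pw k) atTop).congr' ?_ EventuallyEq.rfl
    filter_upwards [hc] with m hm
    rw [Real.norm_eq_abs, Real.norm_eq_abs, abs_of_pos (pw_pos k m)] at hm
    simp only [hf', if_pos hm, sub_self]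
  have h2 := (sum_little k h1).isBigO
  have h3 : (fun N => ∑ m ∈ Finset.range N, f' m) =O[atTop] sc k := by
    refine IsBigO.trans ?_ (G_bigO k)
    refine IsBigO.of_bound |c| (Eventually.of_forall fun N => ?_)
    have h4 : 0 ≤ G k N := Finset.sum_nonneg fun m _ => (pw_pos k m).le
    rw [Real.norm_eq_abs, Real.norm_eq_abs, abs_of_nonneg h4]
    refine (Finset.abs_sum_le_sum_abs _ _).trans ?_
    unfold G
    rw [Finset.mul_sum]
    refine Finset.sum_le_sum fun m _ => ?_
    have p := pw_pos k m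
    simp only [hf']
    split_ifs with h
    · exact h.trans (mul_le_mul_of_nonneg_right (le_abs_self c) p.le)
    · rw [abs_zero]
      positivity
  refine (h2.add h3).congr_left fun N => ?_
  rw [← Finset.sum_add_distrib]
  refine Finset.sum_congr rfl fun m _ => ?_
  ring

/-- partial summation -/
lemma abel {a C t : ℕ → ℝ} (ha : Antitone a) (ha0 : ∀ n, 0 ≤ a n) {K : ℝ} (hC : ∀ n, |C n| ≤ K)
    (ht : ∀ n, |t n| ≤ 1) (N : ℕ) :
    |∑ n ∈ Finset.range N, a n * (C (n + 1) - C n) * t n + ∑ n ∈ Finset.range N, a n * C (n + 1) * (t (n + 1) - t n)| ≤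
      2 * K * a 0 := by
  have hK : 0 ≤ K := (abs_nonneg _).trans (hC 0)
  have e1 : ∑ n ∈ Finset.range N, a n * (C (n + 1) - C n) * t n + ∑ n ∈ Finset.range N, a n * C (n + 1) * (t (n + 1) - t n) =
      (a N * C N * t N - a 0 * C 0 * t 0) + ∑ n ∈ Finset.range N, (a n - a (n + 1)) * (C (n + 1) * t (n + 1)) := by
    rw [← Finset.sum_range_sub (fun n => a n * C n * t n), ← Finset.sum_add_distrib, ← Finset.sum_add_distrib]
    refine Finset.sum_congr rfl fun n _ => ?_
    ring
  have b1 : ∀ n m, |C n * t m| ≤ K := by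
    intro n m
    rw [abs_mul]
    calc |C n| * |t m| ≤ K * 1 := mul_le_mul (hC n) (ht m) (abs_nonneg _) hK
      _ = K := mul_one K
  have b2 : ∀ n, |a n * C n * t n| ≤ a n * K := by
    intro n
    rw [mul_assoc, abs_mul, abs_of_nonneg (ha0 n)]
    exact mul_le_mul_of_nonneg_left (b1 n n) (ha0 n)
  have b3 : |∑ n ∈ Finset.range N, (a n - a (n + 1)) * (C (n + 1) * t (n + 1))| ≤ (a 0 - a N) * K := by
    refine (Finset.abs_sum_le_sum_abs _ _).trans ?_
    rw [← Finset.sum_range_sub' a, Finset.sum_mul]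
    refine Finset.sum_le_sum fun n _ => ?_
    have h1 : 0 ≤ a n - a (n + 1) := sub_nonneg.2 (ha (Nat.le_succ n))
    rw [abs_mul, abs_of_nonneg h1]
    exact mul_le_mul_of_nonneg_left (b1 _ _) h1
  rw [e1]
  calc _ ≤ |a N * C N * t N - a 0 * C 0 * t 0| + |∑ n ∈ Finset.range N, (a n - a (n + 1)) * (C (n + 1) * t (n + 1))| := abs_add_le _ _
    _ ≤ (|a N * C N * t N| + |a 0 * C 0 * t 0|) + (a 0 - a N) * K := add_le_add (abs_sub _ _) b3
    _ ≤ (a N * K + a 0 * K) + (a 0 - a N) * K := by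
        have := b2 N
        have := b2 0
        linarith
    _ = 2 * K * a 0 := by ring

lemma abel_one {a C : ℕ → ℝ} (ha : Antitone a) (ha0 : ∀ n, 0 ≤ a n) {K : ℝ} (hC : ∀ n, |C n| ≤ K) (N : ℕ) :
    |∑ n ∈ Finset.range N, a n * (C (n + 1) - C n)| ≤ 2 * K * a 0 := by
  have h1 := abel ha ha0 hC (t := fun _ => 1) (fun _ => by simp) N
  simpa using h1

/-- a function with the period `P` is bounded -/
lemma periodic_bdd {f : ℕ → ℝ} {P : ℕ} (hP : 0 < P) (h : ∀ n, |f (n + P)| = |f n|) : ∃ K, ∀ n, |f n| ≤ K := by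
  refine ⟨∑ j ∈ Finset.range P, |f j|, fun n => ?_⟩
  induction n using Nat.strong_induction_on with
  | _ n ih =>
    by_cases hn : n < P
    · exact Finset.single_le_sum (f := fun j => |f j|) (fun j _ => abs_nonneg _) (Finset.mem_range.2 hn)
    · have h1 := h (n - P)
      rw [Nat.sub_add_cancel (by omega)] at h1
      rw [h1]
      exact ih _ (by omega)

/-- an antiperiodic function has a bounded antiperiodic primitive -/
lemma anti_prim {g : ℕ → ℝ} {P : ℕ} (hP : 0 < P) (hg : ∀ n, g (n + P) = - g n) :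
    ∃ C : ℕ → ℝ, (∀ n, C (n + 1) - C n = g n) ∧ (∀ n, C (n + P) = - C n) ∧ ∃ K, ∀ n, |C n| ≤ K := by
  set T := ∑ i ∈ Finset.range P, g i with hT
  have h1 : ∀ n, ∑ i ∈ Finset.range (n + P), g i = T - ∑ i ∈ Finset.range n, g i := by
    intro n
    rw [add_comm n P, Finset.sum_range_add, ← hT, sub_eq_add_neg, ← Finset.sum_neg_distrib]
    congr 1
    refine Finset.sum_congr rfl fun i _ => ?_
    rw [add_comm P i]
    exact hg i
  have h2 : ∀ n, ∑ i ∈ Finset.range (n + P), g i - T / 2 = - (∑ i ∈ Finset.range n, g i - T / 2) := by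
    intro n
    rw [h1]
    ring
  refine ⟨fun n => ∑ i ∈ Finset.range n, g i - T / 2, ?_, h2, ?_⟩
  · intro n
    beta_reduce
    rw [Finset.sum_range_succ]
    ring
  · refine periodic_bdd hP fun n => ?_
    rw [h2, abs_neg]

/-- a periodic function minus its mean has a bounded primitive -/
lemma per_prim {r : ℕ → ℝ} {P : ℕ} (hP : 0 < P) (hr : ∀ n, r (n + P) = r n) :
    ∃ C : ℕ → ℝ, (∀ n, C (n + 1) - C n = r n - (∑ i ∈ Finset.range P, r i) / P) ∧ ∃ K, ∀ n, |C n| ≤ K := by
  set κ := (∑ i ∈ Finset.range P, r i) / P with hκ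
  have hP' : (P : ℝ) ≠ 0 := by exact_mod_cast hP.ne'
  have h1 : ∀ n, ∑ i ∈ Finset.range (n + P), (r i - κ) = ∑ i ∈ Finset.range n, (r i - κ) := by
    intro n
    rw [add_comm n P, Finset.sum_range_add]
    have h2 : ∑ i ∈ Finset.range P, (r i - κ) = 0 := by
      rw [Finset.sum_sub_distrib, Finset.sum_const, Finset.card_range, nsmul_eq_mul, hκ]
      field_simp
      ring
    rw [h2, zero_add]
    refine Finset.sum_congr rfl fun i _ => ?_
    rw [add_comm P i, hr]
  refine ⟨fun n => ∑ i ∈ Finset.range n, (r i - κ), ?_, ?_⟩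
  · intro n
    beta_reduce
    rw [Finset.sum_range_succ]
    ring
  · refine periodic_bdd hP fun n => ?_
    rw [h1]

/-- averages over the zeros and ones of a periodic sequence -/
lemma per_lim {r : ℕ → ℝ} {P : ℕ} (hP : 0 < P) (hr : ∀ n, r (n + P) = r n) (k : ℕ) :
    Tendsto (fun N => (∑ m ∈ Finset.range N, r m * pw k m) / sc k N) atTop (𝓝 ((∑ i ∈ Finset.range P, r i) / P)) := by
  obtain ⟨C, hC, K, hK⟩ := per_prim hP hr
  set κ := (∑ i ∈ Finset.range P, r i) / P with hκ
  have h1 : (fun N => ∑ m ∈ Finset.range N, pw k m * (C (m + 1) - C m)) =o[atTop] sc k :=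
    bdd_little k (2 * K * pw k 0) fun N => abel_one (pw_anti k) (fun n => (pw_pos k n).le) hK N
  have h2 := h1.tendsto_div_nhds_zero
  have h3 := (G_lim k).const_mul κ
  have h4 := h2.add h3
  rw [zero_add, mul_one] at h4
  refine h4.congr fun N => ?_
  have h5 : ∑ m ∈ Finset.range N, r m * pw k m = ∑ m ∈ Finset.range N, pw k m * (C (m + 1) - C m) + κ * G k N := by
    unfold G
    rw [Finset.mul_sum, ← Finset.sum_add_distrib]
    refine Finset.sum_congr rfl fun m _ => ?_
    rw [hC]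
    ring
  rw [h5]
  ring

end Pool.Agent.U736.TW
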