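import Mathlib
import Pool.Agent.U736.TW.Ana

set_option autoImplicit false

/-! # The deterministic core: sums over twins -/

open Filter Asymptotics
open scoped Topology

namespace Pool.Agent.U736.TW

/-- the two sums which decide the residues of consecutive twins -/
theorem core (p : ℕ) (hp : p ≤ 2) (c : ℝ) {x r χ t C B : ℕ → ℝ} {K : ℝ}
    (hx0 : ∀ k, 0 ≤ x k) (hχ : ∀ k, |χ k| ≤ 1)
    (hrχ : ∀ k, r k * χ k ^ 2 = r k) (hr2 : ∀ k, r k ^ 2 = r k) (hr : ∀ k, |r k| ≤ 1)
    (ht : ∀ k, |t k| ≤ 1) (hts : ∀ k, t (k + 1) - t k = x k * (χ k - t k))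
    (hC : ∀ k, C (k + 1) - C k = r k * χ k) (hCb : ∀ k, |C k| ≤ K)
    (hB : ∀ k, B (k + 1) - B k = r k * C (k + 1)) (hBb : ∀ k, |B k| ≤ K)
    (P2 : (fun N => ∑ k ∈ Finset.range N, (x k - r k * (c ^ 2 * pw 2 k)) * χ k) =o[atTop] sc (p + 2))
    (P3 : (fun N => ∑ k ∈ Finset.range N, (x k - r k * (c ^ 2 * pw 2 k)) * (χ k * t k)) =o[atTop] sc (p + 2))
    (P4 : (fun N => ∑ k ∈ Finset.range N, (x k - r k * (c ^ 2 * pw 2 k)) * (pw 2 k * C (k + 1) * (χ k - t k)))
      =o[atTop] sc (p + 2))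
    (P5 : (fun N => ∑ k ∈ Finset.range N, (x k - r k * (c ^ 2 * pw 2 k)) * pw 4 k) =o[atTop] sc (p + 2)) :
    (fun N => ∑ k ∈ Finset.range N, x k * χ k) =o[atTop] sc (p + 2) ∧
    (fun N => ∑ k ∈ Finset.range N, x k * (χ k * t k) + c ^ 4 / 2 * ∑ k ∈ Finset.range N, r k * pw 4 k)
      =o[atTop] sc (p + 2) := by
  have hK : 0 ≤ K := (abs_nonneg _).trans (hCb 0)
  constructor
  · -- the first sum
    have h1 : (fun N => ∑ k ∈ Finset.range N, pw 2 k * (C (k + 1) - C k)) =o[atTop] sc (p + 2) :=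
      bdd_little _ _ fun N => abel_one (pw_anti 2) (fun n => (pw_pos 2 n).le) hCb N
    refine (P2.add (h1.const_mul_left (c ^ 2))).congr_left fun N => ?_
    rw [Finset.mul_sum, ← Finset.sum_add_distrib]
    refine Finset.sum_congr rfl fun k _ => ?_
    rw [hC]
    ring
  · -- sums with x * pw 4
    have g1 : (fun N => ∑ k ∈ Finset.range N, r k * pw 6 k) =o[atTop] sc (p + 2) := by
      have h1 : (fun k => r k * pw 6 k) =O[atTop] pw 6 := by
        refine IsBigO.of_bound 1 (Eventually.of_forall fun k => ?_)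
        rw [norm_mul, Real.norm_eq_abs]
        exact mul_le_mul_of_nonneg_right (hr k) (norm_nonneg _)
      refine (sum_bigO 6 h1).trans_isLittleO ?_
      exact (sc_little 5).trans_isBigO (sc_bigO (by omega))
    have g2 : (fun N => ∑ k ∈ Finset.range N, x k * pw 4 k) =o[atTop] sc (p + 2) := by
      refine (P5.add (g1.const_mul_left (c ^ 2))).congr_left fun N => ?_
      rw [Finset.mul_sum, ← Finset.sum_add_distrib]
      refine Finset.sum_congr rfl fun k _ => ?_
      rw [← pw_mul 2 4 k]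
      ring
    -- the sum with B
    have g3 : (fun N => ∑ k ∈ Finset.range N, pw 4 k * B (k + 1) * (t (k + 1) - t k)) =o[atTop] sc (p + 2) := by
      refine IsBigO.trans_isLittleO ?_ g2
      refine IsBigO.of_bound (2 * K) (Eventually.of_forall fun N => ?_)
      have h0 : 0 ≤ ∑ k ∈ Finset.range N, x k * pw 4 k :=
        Finset.sum_nonneg fun k _ => mul_nonneg (hx0 k) (pw_pos 4 k).le
      rw [Real.norm_eq_abs, Real.norm_eq_abs, abs_of_nonneg h0, Finset.mul_sum]
      refine (Finset.abs_sum_le_sum_abs _ _).trans (Finset.sum_le_sum fun k _ => ?_)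
      have p4 := (pw_pos 4 k).le
      have e1 : |χ k - t k| ≤ 2 := by
        refine (abs_sub _ _).trans ?_
        linarith [hχ k, ht k]
      rw [hts, abs_mul, abs_mul, abs_mul, abs_of_nonneg p4, abs_of_nonneg (hx0 k)]
      calc pw 4 k * |B (k + 1)| * (x k * |χ k - t k|) ≤ pw 4 k * K * (x k * 2) := by
            refine mul_le_mul (mul_le_mul_of_nonneg_left (hBb _) p4) (mul_le_mul_of_nonneg_left e1 (hx0 k)) ?_ ?_
            · exact mul_nonneg (hx0 k) (abs_nonneg _)
            · positivity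
        _ = 2 * K * (x k * pw 4 k) := by ring
    have g4 : (fun N => ∑ k ∈ Finset.range N, r k * pw 4 k * C (k + 1) * t k) =o[atTop] sc (p + 2) := by
      have h1 : (fun N => ∑ k ∈ Finset.range N, pw 4 k * (B (k + 1) - B k) * t k +
          ∑ k ∈ Finset.range N, pw 4 k * B (k + 1) * (t (k + 1) - t k)) =o[atTop] sc (p + 2) :=
        bdd_little _ _ fun N => abel (pw_anti 4) (fun n => (pw_pos 4 n).le) hBb ht N
      refine (h1.sub g3).congr_left fun N => ?_
      rw [add_sub_cancel_right]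
      refine Finset.sum_congr rfl fun k _ => ?_
      rw [hB]
      ring
    -- the sum with C and chi
    have g5 : (fun N => ∑ k ∈ Finset.range N, r k * pw 4 k * C (k + 1) * χ k - 1 / 2 * ∑ k ∈ Finset.range N, r k * pw 4 k)
        =o[atTop] sc (p + 2) := by
      have h1 : (fun N => ∑ k ∈ Finset.range N, pw 4 k * ((fun j => C j ^ 2) (k + 1) - (fun j => C j ^ 2) k)) =o[atTop] sc (p + 2) :=
        bdd_little _ (2 * K ^ 2 * pw 4 0) fun N => abel_one (C := fun j => C j ^ 2) (pw_anti 4)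
          (fun n => (pw_pos 4 n).le) (fun n => by
            rw [abs_pow]
            exact pow_le_pow_left₀ (abs_nonneg _) (hCb n) 2) N
      refine (h1.const_mul_left (1 / 2)).congr_left fun N => ?_
      rw [Finset.mul_sum, Finset.mul_sum, ← Finset.sum_sub_distrib]
      refine Finset.sum_congr rfl fun k _ => ?_
      have e1 : C k = C (k + 1) - r k * χ k := by linarith [hC k]
      beta_reduce
      rw [e1]
      have e2 : (r k * χ k) ^ 2 = r k := by
        rw [mul_pow, hr2, hrχ]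
      have e3 : C (k + 1) ^ 2 - (C (k + 1) - r k * χ k) ^ 2 = 2 * (r k * χ k) * C (k + 1) - (r k * χ k) ^ 2 := by ring
      rw [e3, e2]
      ring
    have g6 : (fun N => ∑ k ∈ Finset.range N, pw 2 k * C (k + 1) * (t (k + 1) - t k) - c ^ 2 / 2 * ∑ k ∈ Finset.range N, r k * pw 4 k)
        =o[atTop] sc (p + 2) := by
      refine (P4.add ((g5.sub g4).const_mul_left (c ^ 2))).congr_left fun N => ?_
      have e1 : ∑ k ∈ Finset.range N, pw 2 k * C (k + 1) * (t (k + 1) - t k) =
          ∑ k ∈ Finset.range N, (x k - r k * (c ^ 2 * pw 2 k)) * (pw 2 k * C (k + 1) * (χ k - t k)) +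
          c ^ 2 * (∑ k ∈ Finset.range N, r k * pw 4 k * C (k + 1) * χ k - ∑ k ∈ Finset.range N, r k * pw 4 k * C (k + 1) * t k) := by
        rw [← Finset.sum_sub_distrib, Finset.mul_sum, ← Finset.sum_add_distrib]
        refine Finset.sum_congr rfl fun k _ => ?_
        rw [hts, ← pw_mul 2 2 k]
        ring
      rw [e1]
      ring
    have g7 : (fun N => ∑ k ∈ Finset.range N, pw 2 k * (C (k + 1) - C k) * t k + c ^ 2 / 2 * ∑ k ∈ Finset.range N, r k * pw 4 k)
        =o[atTop] sc (p + 2) := by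
      have h1 : (fun N => ∑ k ∈ Finset.range N, pw 2 k * (C (k + 1) - C k) * t k +
          ∑ k ∈ Finset.range N, pw 2 k * C (k + 1) * (t (k + 1) - t k)) =o[atTop] sc (p + 2) :=
        bdd_little _ _ fun N => abel (pw_anti 2) (fun n => (pw_pos 2 n).le) hCb ht N
      refine (h1.sub g6).congr_left fun N => ?_
      ring
    refine (P3.add (g7.const_mul_left (c ^ 2))).congr_left fun N => ?_
    have e1 : ∑ k ∈ Finset.range N, x k * (χ k * t k) = ∑ k ∈ Finset.range N, (x k - r k * (c ^ 2 * pw 2 k)) * (χ k * t k) +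
        c ^ 2 * ∑ k ∈ Finset.range N, pw 2 k * (C (k + 1) - C k) * t k := by
      rw [Finset.mul_sum, ← Finset.sum_add_distrib]
      refine Finset.sum_congr rfl fun k _ => ?_
      rw [hC]
      ring
    rw [e1]
    ring

/-- the limits of the ratios -/
theorem ratio (p : ℕ) {c κ sa sb : ℝ} (hc : 0 < c) (hκ : 0 < κ)
    {Nt F D S2 S4 cn pr : ℕ → ℝ} {M : ℝ}
    (hS2 : Tendsto (fun N => S2 N / sc 2 N) atTop (𝓝 κ)) (hS4 : Tendsto (fun N => S4 N / sc 4 N) atTop (𝓝 κ))
    (hN : (fun N => Nt N - c ^ 2 * S2 N) =o[atTop] sc (p + 2)) (hF : F =o[atTop] sc (p + 2))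
    (hD : (fun N => D N + c ^ 4 / 2 * S4 N) =o[atTop] sc (p + 2))
    (hcn : ∀ N, cn N = (Nt N + sa * F N) / 2)
    (hpr : ∀ N, |pr N - (Nt N + (sa + sb) * F N + sa * sb * D N) / 4| ≤ M) :
    Tendsto Nt atTop atTop ∧
    Tendsto (fun N => pr N / cn N) atTop (𝓝 (1 / 2)) ∧
    (2 ≤ p → Tendsto (fun N => (pr N / cn N - 1 / 2) * Lg N ^ 2) atTop (𝓝 (-(sa * sb * c ^ 2) / 4))) := by
  have l2 : sc (p + 2) =O[atTop] sc 2 := sc_bigO (by omega)
  have hN2 := (hN.trans_isBigO l2).tendsto_div_nhds_zero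
  have hF2 := (hF.trans_isBigO l2).tendsto_div_nhds_zero
  have hD2 := (hD.trans_isBigO l2).tendsto_div_nhds_zero
  have hNt : Tendsto (fun N => Nt N / sc 2 N) atTop (𝓝 (c ^ 2 * κ)) := by
    have h1 := hN2.add (hS2.const_mul (c ^ 2))
    rw [zero_add] at h1
    refine h1.congr fun N => ?_
    ring
  have hcn2 : Tendsto (fun N => cn N / sc 2 N) atTop (𝓝 (c ^ 2 * κ / 2)) := by
    have h1 := (hNt.add (hF2.const_mul sa)).div_const 2
    rw [mul_zero, add_zero] at h1
    refine h1.congr fun N => ?_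
    rw [hcn]
    ring
  have hpos : 0 < c ^ 2 * κ := by positivity
  have herr : ∀ j, (fun N => pr N - (Nt N + (sa + sb) * F N + sa * sb * D N) / 4) =o[atTop] sc j := fun j =>
    bdd_little j M hpr
  have hS42 : Tendsto (fun N => S4 N / sc 2 N) atTop (𝓝 0) := by
    have h1 : S4 =O[atTop] sc 4 := by
      have h2 := hS4.isBigO_one ℝ
      have h3 : (fun N => S4 N / sc 4 N * sc 4 N) =O[atTop] fun N => (1 : ℝ) * sc 4 N := h2.mul (isBigO_refl _ _)
      refine (h3.congr_left fun N => ?_).congr_right fun N => one_mul _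
      rw [div_mul_cancel₀ _ (sc_pos 4 N).ne']
    have h2 : S4 =o[atTop] sc 2 := h1.trans_isLittleO ((sc_little 3).trans_isBigO (sc_bigO (by omega)))
    exact h2.tendsto_div_nhds_zero
  have hD0 : Tendsto (fun N => D N / sc 2 N) atTop (𝓝 0) := by
    have h1 := hD2.sub (hS42.const_mul (c ^ 4 / 2))
    rw [mul_zero, sub_zero] at h1
    refine h1.congr fun N => ?_
    ring
  refine ⟨?_, ?_, ?_⟩
  · have h1 := (sc_tendsto 2).atTop_mul_pos hpos hNt
    refine h1.congr fun N => ?_
    have := (sc_pos 2 N).ne'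
    field_simp
  · have h1 : Tendsto (fun N => pr N / sc 2 N) atTop (𝓝 (c ^ 2 * κ / 4)) := by
      have h2 := (herr 2).tendsto_div_nhds_zero
      have h3 := ((hNt.add (hF2.const_mul (sa + sb))).add (hD0.const_mul (sa * sb))).div_const 4
      have h4 := h2.add h3
      simp only [mul_zero, add_zero, zero_add] at h4
      refine h4.congr fun N => ?_
      ring
    have h2 := h1.div hcn2 (by positivity)
    have h3 : c ^ 2 * κ / 4 / (c ^ 2 * κ / 2) = 1 / 2 := by
      have : c ^ 2 * κ ≠ 0 := hpos.ne'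
      field_simp
      norm_num
    rw [h3] at h2
    refine h2.congr fun N => ?_
    have := (sc_pos 2 N).ne'
    rw [Pi.div_apply]
    rw [div_div_div_cancel_right₀ this]
  · intro hp
    have l4 : sc (p + 2) =O[atTop] sc 4 := sc_bigO (by omega)
    have hF4 := (hF.trans_isBigO l4).tendsto_div_nhds_zero
    have hD4 := (hD.trans_isBigO l4).tendsto_div_nhds_zero
    have h1 : Tendsto (fun N => (pr N - cn N / 2) / sc 4 N) atTop (𝓝 (-(sa * sb * c ^ 4 * κ) / 8)) := by
      have h2 := (herr 4).tendsto_div_nhds_zero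
      have h3 := ((hF4.const_mul sb).add ((hD4.sub (hS4.const_mul (c ^ 4 / 2))).const_mul (sa * sb))).div_const 4
      have h4 := h2.add h3
      have h5 : 0 + (sb * 0 + sa * sb * (0 - c ^ 4 / 2 * κ)) / 4 = -(sa * sb * c ^ 4 * κ) / 8 := by ring
      rw [h5] at h4
      refine h4.congr fun N => ?_
      rw [hcn]
      ring
    have h2 := h1.div hcn2 (by positivity)
    have h3 : -(sa * sb * c ^ 4 * κ) / 8 / (c ^ 2 * κ / 2) = -(sa * sb * c ^ 2) / 4 := by
      have : κ ≠ 0 := hκ.ne'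
      have : c ≠ 0 := hc.ne'
      field_simp
      ring
    rw [h3] at h2
    refine h2.congr' ?_
    have h6 : ∀ᶠ N in atTop, 0 < cn N / sc 2 N := hcn2.eventually_const_lt (by positivity)
    filter_upwards [h6] with N hN6
    have hs2 := sc_pos 2 N
    have hs4 := sc_pos 4 N
    have hcn0 : cn N ≠ 0 := by
      intro h
      rw [h, zero_div] at hN6
      exact lt_irrefl _ hN6
    have hL := Lg_pos N
    have h7 : sc 2 N = Lg N ^ 2 * sc 4 N := by
      unfold sc
      field_simp
    rw [Pi.div_apply, h7]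
    have := hs4.ne'
    field_simp

end Pool.Agent.U736.TW
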