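import Mathlib
import Pool.Agent.R528.RM.Gold
import Pool.Agent.U736.TW.Core

set_option autoImplicit false

/-! # The probabilistic part: twins of an adapted random set -/

open MeasureTheory Filter Asymptotics
open scoped Topology

namespace Pool.Agent.U736.TW

open Pool.Agent.R528.RM

/-! ### Deterministic estimates of the densities -/

lemma pw1 (k : ℕ) : pw 1 k = (Lg k)⁻¹ := by
  unfold pw
  rw [pow_one]

/-- `1 / (k + 1)` is small in every logarithmic scale -/
lemma inv_little (j : ℕ) : (fun k : ℕ => ((k : ℝ) + 3)⁻¹) =o[atTop] pw j := by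
  rw [isLittleO_iff_tendsto (fun m h => absurd h (pw_pos j m).ne')]
  have h1 := (const_little j 1).tendsto_div_nhds_zero
  refine h1.congr fun N => ?_
  rw [sc_eq]
  have := (pw_pos j N).ne'
  field_simp

lemma log_ge (k j : ℕ) (hk : 3 ≤ k) : Lg k ≤ 2 * Real.log ((k + j : ℕ) : ℝ) := by
  unfold Lg
  have h1 : (3 : ℝ) ≤ k := by exact_mod_cast hk
  have h2 : (0 : ℝ) ≤ j := Nat.cast_nonneg j
  rw [show 2 * Real.log ((k + j : ℕ) : ℝ) = Real.log (((k + j : ℕ) : ℝ) ^ 2) by
    rw [Real.log_pow]; norm_num]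
  apply Real.log_le_log (by positivity)
  push_cast
  nlinarith

lemma log_near (k j : ℕ) (hk : 3 ≤ k) (hj : j ≤ 3) : |Real.log ((k + j : ℕ) : ℝ) - Lg k| ≤ 6 * ((k : ℝ) + 3)⁻¹ := by
  unfold Lg
  have h1 : (3 : ℝ) ≤ k := by exact_mod_cast hk
  have h2 : (0 : ℝ) ≤ j := Nat.cast_nonneg j
  have h3 : (j : ℝ) ≤ 3 := by exact_mod_cast hj
  have h4 : Real.log ((k + j : ℕ) : ℝ) ≤ Real.log ((k : ℝ) + 3) := by
    apply Real.log_le_log (by positivity)
    push_cast
    linarith
  rw [abs_sub_comm, abs_of_nonneg (by linarith), ← Real.log_div (by positivity) (by positivity)]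
  refine (Real.log_le_sub_one_of_pos (by positivity)).trans ?_
  push_cast
  rw [div_sub_one (by positivity), div_le_iff₀ (by positivity)]
  have h5 : ((k : ℝ) + 3) - (k + j) ≤ 3 := by linarith
  refine h5.trans ?_
  rw [mul_assoc, inv_mul_eq_div, ← mul_div_assoc, le_div_iff₀ (by positivity)]
  nlinarith

/-- the densities compared with `c / log k` -/
lemma dens_little {d : ℕ → ℝ} {s : Set ℕ} {c : ℝ} {p : ℕ} (j : ℕ) (hj : j ≤ 3)
    (h : Tendsto (fun n : ℕ => (d n * Real.log n - c) * Real.log n ^ p) (atTop ⊓ 𝓟 s) (𝓝 0)) :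
    (fun k => Set.indicator {k | k + j ∈ s} (fun k => d (k + j) - c * pw 1 k) k) =o[atTop] pw (p + 1) := by
  classical
  have hshift : Tendsto (fun k : ℕ => k + j) (atTop ⊓ 𝓟 {k | k + j ∈ s}) (atTop ⊓ 𝓟 s) := by
    refine tendsto_inf.2 ⟨(tendsto_add_atTop_nat j).mono_left inf_le_left, ?_⟩
    refine tendsto_principal.2 ?_
    exact eventually_inf_principal.2 (Eventually.of_forall fun k hk => hk)
  have h1 := h.comp hshift
  rw [isLittleO_iff]
  intro ε hε
  -- the two errors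
  have h2 : ∀ᶠ k in atTop, k + j ∈ s → |(d (k + j) * Real.log ((k + j : ℕ) : ℝ) - c) * Real.log ((k + j : ℕ) : ℝ) ^ p| ≤
      ε / (2 * 2 ^ (p + 1)) := by
    have h3 := (Metric.tendsto_nhds.1 h1) (ε / (2 * 2 ^ (p + 1))) (by positivity)
    rw [eventually_inf_principal] at h3
    filter_upwards [h3] with k hk hks
    have := hk hks
    simp only [Function.comp, Real.dist_eq, sub_zero] at this
    exact this.le
  have h4 := (inv_little (p + 1)).bound (show 0 < ε / (2 * (12 * (|c| + 1))) by positivity)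
  filter_upwards [h2, h4, eventually_ge_atTop 3] with k k2 k4 k3
  rw [Real.norm_eq_abs, Real.norm_eq_abs, abs_of_pos (pw_pos (p + 1) k)]
  by_cases hks : k + j ∈ s
  swap
  · rw [Set.indicator_of_notMem (by simpa using hks), abs_zero]
    have := (pw_pos (p + 1) k).le
    positivity
  rw [Set.indicator_of_mem (by simpa using hks)]
  have a1 := log_ge k j k3
  have a2 := log_near k j k3 hj
  have a0 := one_lt_Lg k
  have a3 := k2 hks
  rw [Real.norm_eq_abs, Real.norm_eq_abs, abs_of_pos (pw_pos (p + 1) k),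
    abs_of_pos (show (0 : ℝ) < ((k : ℝ) + 3)⁻¹ by positivity)] at k4
  set L := Real.log ((k + j : ℕ) : ℝ) with hL
  have hL0 : 0 < L := by linarith
  have hLg0 := Lg_pos k
  have e1 : d (k + j) - c * pw 1 k = ((d (k + j) * L - c) * L ^ p) * (L ^ (p + 1))⁻¹ + c * (Lg k - L) * (L⁻¹ * (Lg k)⁻¹) := by
    rw [pw1, pow_succ]
    field_simp
    ring
  have e2 : (L ^ (p + 1))⁻¹ ≤ 2 ^ (p + 1) * pw (p + 1) k := by
    unfold pw
    rw [inv_le_iff_one_le_mul₀ (by positivity)]
    have : Lg k ^ (p + 1) ≤ (2 * L) ^ (p + 1) := pow_le_pow_left₀ hLg0.le a1 _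
    rw [mul_pow] at this
    rw [mul_comm (2 ^ (p + 1)) _, mul_assoc, ← div_eq_inv_mul, le_div_iff₀ (by positivity), one_mul]
    exact this
  have e3 : L⁻¹ * (Lg k)⁻¹ ≤ 2 := by
    have b1 : L⁻¹ ≤ 2 := by
      rw [inv_le_iff_one_le_mul₀ hL0]
      linarith
    have b2 : (Lg k)⁻¹ ≤ 1 := inv_le_one_of_one_le₀ a0.le
    calc L⁻¹ * (Lg k)⁻¹ ≤ 2 * 1 := mul_le_mul b1 b2 (by positivity) (by norm_num)
      _ = 2 := by norm_num
  have e4 : |((d (k + j) * L - c) * L ^ p) * (L ^ (p + 1))⁻¹| ≤ ε / 2 * pw (p + 1) k := by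
    rw [abs_mul, abs_of_pos (show 0 < (L ^ (p + 1))⁻¹ by positivity)]
    calc _ ≤ ε / (2 * 2 ^ (p + 1)) * (2 ^ (p + 1) * pw (p + 1) k) := mul_le_mul a3 e2 (by positivity) (by positivity)
      _ = _ := by field_simp
  have e5 : |c * (Lg k - L) * (L⁻¹ * (Lg k)⁻¹)| ≤ ε / 2 * pw (p + 1) k := by
    rw [abs_mul, abs_of_pos (show 0 < L⁻¹ * (Lg k)⁻¹ by positivity), abs_mul, abs_sub_comm]
    calc |c| * |L - Lg k| * (L⁻¹ * (Lg k)⁻¹) ≤ |c| * (6 * ((k : ℝ) + 3)⁻¹) * 2 :=
          mul_le_mul (mul_le_mul_of_nonneg_left a2 (abs_nonneg c)) e3 (by positivity) (by positivity)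
      _ = 12 * |c| * ((k : ℝ) + 3)⁻¹ := by ring
      _ ≤ 12 * (|c| + 1) * ((k : ℝ) + 3)⁻¹ := mul_le_mul_of_nonneg_right (by linarith [abs_nonneg c]) (by positivity)
      _ ≤ 12 * (|c| + 1) * (ε / (2 * (12 * (|c| + 1))) * pw (p + 1) k) := mul_le_mul_of_nonneg_left k4 (by positivity)
      _ = _ := by
        have : |c| + 1 ≠ 0 := by positivity
        field_simp
  rw [e1]
  refine (abs_add_le _ _).trans ?_
  linarith

/-! ### Martingales -/

variable {Ω : Type} {m0 : MeasurableSpace Ω} {μ : Measure Ω} [IsProbabilityMeasure μ]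
  {ℱ : Filtration ℕ m0} {A : ℕ → Set Ω}

/-- the martingales are small almost surely -/
theorem lln (hA : ∀ n, MeasurableSet[ℱ n] (A n)) (a : ℕ) (w : ℕ → Ω → ℝ)
    (hw : ∀ k, StronglyMeasurable[ℱ (a + k)] (w k)) {K : ℝ} (hK : ∀ k ω, |w k ω| ≤ K) (j : ℕ) :
    ∀ᵐ ω ∂μ, (fun N => Sw μ ℱ A a w N ω) =o[atTop] sc j := by
  set K' := max K 1 with hK'
  have hK0 : 0 < K' := lt_of_lt_of_le one_pos (le_max_right _ _)
  set w' : ℕ → Ω → ℝ := fun k ω => w k ω * K'⁻¹ with hw'
  have h1 : ∀ k, StronglyMeasurable[ℱ (a + k)] (w' k) := fun k => (hw k).mul_const _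
  have h2 : ∀ k ω, |w' k ω| ≤ 1 := by
    intro k ω
    simp only [hw']
    rw [abs_mul, abs_of_pos (inv_pos.2 hK0), ← div_eq_mul_inv, div_le_one hK0]
    exact (hK k ω).trans (le_max_left _ _)
  have h3 : ∀ N ω, Sw μ ℱ A a w N ω = K' * Sw μ ℱ A a w' N ω := by
    intro N ω
    unfold Sw
    rw [Finset.mul_sum]
    refine Finset.sum_congr rfl fun k _ => ?_
    simp only [hw']
    field_simp
  have hsum : Summable (fun n : ℕ => 2 * ((n : ℝ) ^ 2)⁻¹) :=
    (Real.summable_nat_pow_inv.2 (by norm_num)).mul_left 2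
  have h4 := bc_real (μ := μ) hsum (s := fun n => {ω | 2 * √(n * Real.log n) ≤ |Sw μ ℱ A a w' n ω|}) (by
    filter_upwards [eventually_ge_atTop 4] with n hn
    have hn' : (4 : ℝ) ≤ n := by exact_mod_cast hn
    have hlog : 0 ≤ Real.log (n : ℝ) := Real.log_natCast_nonneg n
    have g1 := Sw_tail (μ := μ) hA a w' h1 h2 n (by omega) (lam := 2 * √(n * Real.log n)) (by positivity)
    refine g1.trans (mul_le_mul_of_nonneg_left ?_ (by norm_num))
    have e1 : ((n : ℝ) ^ 2)⁻¹ = Real.exp (-(2 * Real.log n)) := by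
      rw [Real.exp_neg, mul_comm, Real.exp_mul, Real.exp_log (by linarith)]
      norm_num
    rw [e1]
    apply Real.exp_le_exp.2
    apply neg_le_neg
    rw [mul_pow, Real.sq_sqrt (by positivity), le_div_iff₀ (by positivity)]
    nlinarith)
  filter_upwards [h4] with ω hω
  have h5 : (fun N => Sw μ ℱ A a w' N ω) =o[atTop] sc j := by
    refine IsBigO.trans_isLittleO ?_ (rpow_little j (s := 3 / 4) (by norm_num))
    refine IsBigO.of_bound 4 ?_
    filter_upwards [hω, eventually_ge_atTop 1] with n hn hn1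
    have hn' : (1 : ℝ) ≤ n := by exact_mod_cast hn1
    have hn0 : (0 : ℝ) < n := by linarith
    have g1 : |Sw μ ℱ A a w' n ω| < 2 * √(n * Real.log n) := not_le.1 hn
    rw [Real.norm_eq_abs, Real.norm_eq_abs, abs_of_pos (show (0 : ℝ) < ((n : ℝ) + 3) ^ (3 / 4 : ℝ) by positivity)]
    refine g1.le.trans ?_
    have g2 : Real.log n ≤ (n : ℝ) ^ (1 / 2 : ℝ) / (1 / 2) := Real.log_le_rpow_div hn0.le (by norm_num)
    have g3 : (n : ℝ) * Real.log n ≤ 2 ^ 2 * ((n : ℝ) ^ (3 / 4 : ℝ)) ^ 2 := by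
      have e1 : ((n : ℝ) ^ (3 / 4 : ℝ)) ^ 2 = (n : ℝ) * (n : ℝ) ^ (1 / 2 : ℝ) := by
        rw [← Real.rpow_natCast, ← Real.rpow_mul hn0.le]
        have : (n : ℝ) * (n : ℝ) ^ (1 / 2 : ℝ) = (n : ℝ) ^ (1 : ℝ) * (n : ℝ) ^ (1 / 2 : ℝ) := by rw [Real.rpow_one]
        rw [this, ← Real.rpow_add hn0]
        norm_num
      rw [e1]
      have g4 : 0 ≤ (n : ℝ) ^ (1 / 2 : ℝ) := by positivity
      nlinarith [mul_nonneg hn0.le g4, mul_le_mul_of_nonneg_left g2 hn0.le]
    have g5 : √(n * Real.log n) ≤ 2 * (n : ℝ) ^ (3 / 4 : ℝ) := by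
      rw [← mul_pow] at g3
      exact (Real.sqrt_le_sqrt g3).trans (le_of_eq (Real.sqrt_sq (by positivity)))
    have g6 : (n : ℝ) ^ (3 / 4 : ℝ) ≤ ((n : ℝ) + 3) ^ (3 / 4 : ℝ) :=
      Real.rpow_le_rpow hn0.le (by linarith) (by norm_num)
    linarith
  refine (h5.const_mul_left K').congr_left fun N => ?_
  rw [h3]

/-- the coprime places -/
noncomputable def rr (Q k : ℕ) : ℝ := by
  classical exact if Nat.Coprime (k + 1) Q ∧ Nat.Coprime (k + 3) Q then 1 else 0

lemma rr_le (Q k : ℕ) : |rr Q k| ≤ 1 := by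
  unfold rr
  split_ifs <;> simp

lemma rr_sq (Q k : ℕ) : rr Q k ^ 2 = rr Q k := by
  unfold rr
  split_ifs <;> simp

/-- the indicator of `k + 1` being the first member of a twin pair -/
noncomputable def xx (A : ℕ → Set Ω) (k : ℕ) (ω : Ω) : ℝ := In A (k + 1) ω * In A (k + 3) ω

lemma In_zero {Q : ℕ} (hcop : ∀ n, ¬ Nat.Coprime n Q → A n = ∅) {n : ℕ} (h : ¬ Nat.Coprime n Q) (ω : Ω) : In A n ω = 0 := by
  unfold In
  rw [hcop n h]
  simp

lemma dens_zero {Q : ℕ} (hcop : ∀ n, ¬ Nat.Coprime n Q → A n = ∅) :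
    ∀ᵐ ω ∂μ, ∀ n, ¬ Nat.Coprime (n + 1) Q → dens μ ℱ A n ω = 0 := by
  refine ae_all_iff.2 fun n => ?_
  by_cases h : Nat.Coprime (n + 1) Q
  · exact Eventually.of_forall fun ω h' => absurd h h'
  · have h1 : dens μ ℱ A n = 0 := by
      unfold dens
      rw [hcop _ h]
      simp only [Set.indicator_empty]
      exact condExp_zero
    rw [h1]
    exact Eventually.of_forall fun ω _ => rfl

/-- the law of large numbers for sums over twins with predictable weights -/
theorem twin_lln (hA : ∀ n, MeasurableSet[ℱ n] (A n)) {Q : ℕ} (hcop : ∀ n, ¬ Nat.Coprime n Q → A n = ∅)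
    {c : ℝ} {p : ℕ}
    (hd : ∀ᵐ ω ∂μ, Tendsto (fun n : ℕ => (dens μ ℱ A n ω * Real.log n - c) * Real.log n ^ p)
      (atTop ⊓ 𝓟 {n : ℕ | Nat.Coprime (n + 1) Q}) (𝓝 0))
    (W : ℕ → Ω → ℝ) (hW : ∀ k, StronglyMeasurable[ℱ k] (W k)) {K : ℝ} (hK : ∀ k ω, |W k ω| ≤ K) :
    ∀ᵐ ω ∂μ, (fun N => ∑ k ∈ Finset.range N, (xx A k ω - rr Q k * (c ^ 2 * pw 2 k)) * W k ω) =o[atTop] sc (p + 2) := by
  classical
  have hIm : ∀ k, StronglyMeasurable[ℱ (k + 1)] (In A (k + 1)) := fun k => In_meas hA le_rfl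
  have hI1 : ∀ n ω, |In A n ω| ≤ 1 := fun n ω => by
    rw [abs_of_nonneg (In_nonneg _ _)]; exact In_le _ _
  -- the three martingales
  have m1 := lln (μ := μ) (ℱ := ℱ) hA 2 (fun k ω => In A (k + 1) ω * W k ω) (fun k => by
    have h1 : StronglyMeasurable[ℱ (2 + k)] (In A (k + 1)) := In_meas hA (by omega)
    have h2 : StronglyMeasurable[ℱ (2 + k)] (W k) := (hW k).mono (ℱ.mono (by omega))
    exact @StronglyMeasurable.mul _ _ _ _ (ℱ (2 + k)) _ _ _ h1 h2) (K := 1 * K) (fun k ω => by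
    rw [abs_mul]
    exact mul_le_mul (hI1 _ _) (hK k ω) (abs_nonneg _) zero_le_one) (p + 2)
  have m2 := lln (μ := μ) (ℱ := ℱ) hA 0 (fun k ω => W k ω * (rr Q k * (c * pw 1 k))) (fun k => by
    rw [zero_add]
    exact (hW k).mul_const _) (K := K * (1 * (|c| * 1))) (fun k ω => by
    have hK0 : 0 ≤ K := (abs_nonneg _).trans (hK k ω)
    rw [abs_mul, abs_mul, abs_mul, abs_of_pos (pw_pos 1 k)]
    refine mul_le_mul (hK k ω) ?_ (by have := pw_pos 1 k; positivity) hK0
    refine mul_le_mul (rr_le Q k) ?_ (by have := pw_pos 1 k; positivity) zero_le_one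
    exact mul_le_mul_of_nonneg_left (pw_le_one 1 k) (abs_nonneg c)) (p + 2)
  have m3 := lln (μ := μ) (ℱ := ℱ) hA 0 (fun k _ => pw (p + 1) k) (fun k => stronglyMeasurable_const) (K := 1)
    (fun k ω => by rw [abs_of_pos (pw_pos _ _)]; exact pw_le_one _ _) (p + 2)
  filter_upwards [m1, m2, m3, hd, dens_zero (μ := μ) (ℱ := ℱ) hcop] with ω w1 w2 w3 wd wz
  set d : ℕ → ℝ := fun n => dens μ ℱ A n ω with hdd
  have E1 := dens_little (d := d) 0 (by norm_num) wd
  have E2 := dens_little (d := d) 2 (by norm_num) wd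
  set e1 : ℕ → ℝ := fun k => Set.indicator {k | k + 0 ∈ {n : ℕ | Nat.Coprime (n + 1) Q}} (fun k => d (k + 0) - c * pw 1 k) k with he1
  set e2 : ℕ → ℝ := fun k => Set.indicator {k | k + 2 ∈ {n : ℕ | Nat.Coprime (n + 1) Q}} (fun k => d (k + 2) - c * pw 1 k) k with he2
  have hE1 : ∀ k, Nat.Coprime (k + 1) Q → e1 k = d k - c * pw 1 k := fun k hk => by
    simp only [he1]
    rw [Set.indicator_of_mem (by simpa using hk), add_zero]
  have hE2 : ∀ k, Nat.Coprime (k + 3) Q → e2 k = d (k + 2) - c * pw 1 k := fun k hk => by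
    simp only [he2]
    rw [Set.indicator_of_mem (by simpa using hk)]
  have hE2' : ∀ k, ¬ Nat.Coprime (k + 3) Q → e2 k = 0 := fun k hk => by
    simp only [he2]
    rw [Set.indicator_of_notMem (by simpa using hk)]
  have hK0 : 0 ≤ K := (abs_nonneg _).trans (hK 0 ω)
  -- the weights sum
  have hdO : d =O[atTop] pw 1 := by
    have h1 : (fun k => (if Nat.Coprime (k + 1) Q then c else 0) * pw 1 k) =O[atTop] pw 1 := by
      refine IsBigO.of_bound |c| (Eventually.of_forall fun k => ?_)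
      rw [norm_mul, Real.norm_eq_abs]
      refine mul_le_mul_of_nonneg_right ?_ (norm_nonneg _)
      split_ifs
      · exact le_rfl
      · rw [abs_zero]; exact abs_nonneg c
    have h2 : e1 =O[atTop] pw 1 := by
      refine E1.isBigO.trans ?_
      refine IsBigO.of_bound 1 (Eventually.of_forall fun k => ?_)
      rw [Real.norm_eq_abs, Real.norm_eq_abs, abs_of_pos (pw_pos _ _), abs_of_pos (pw_pos _ _), one_mul]
      exact pw_le (by omega) k
    refine (h1.add h2).congr_left fun k => ?_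
    by_cases hk : Nat.Coprime (k + 1) Q
    · rw [if_pos hk, hE1 k hk]
      ring
    · have h3 : e1 k = 0 := by
        simp only [he1]
        rw [Set.indicator_of_notMem (by simpa using hk)]
      rw [if_neg hk, h3]
      simp only [hdd]
      rw [wz k hk]
      ring
  have hIO : (fun N => ∑ k ∈ Finset.range N, In A (k + 1) ω * pw (p + 1) k) =O[atTop] sc (p + 2) := by
    have h1 : (fun N => ∑ k ∈ Finset.range N, pw (p + 1) k * d k) =O[atTop] sc (p + 2) := by
      refine sum_bigO (p + 2) ?_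
      have h2 : (fun k => pw (p + 1) k * d k) =O[atTop] fun k => pw (p + 1) k * pw 1 k := (isBigO_refl _ _).mul hdO
      refine h2.congr_right fun k => ?_
      rw [pw_mul]
    refine (w3.isBigO.add h1).congr_left fun N => ?_
    unfold Sw
    rw [← Finset.sum_add_distrib]
    refine Finset.sum_congr rfl fun k _ => ?_
    rw [zero_add]
    simp only [hdd, In]
    ring
  -- the second bracket
  have b2 : (fun N => ∑ k ∈ Finset.range N, In A (k + 1) ω * W k ω * e2 k) =o[atTop] sc (p + 2) := by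
    set g : ℕ → ℝ := fun k => In A (k + 1) ω * pw (p + 1) k + pw (p + 2) k with hg
    have hg0 : ∀ k, 0 ≤ g k := fun k => add_nonneg (mul_nonneg (In_nonneg _ _) (pw_pos _ _).le) (pw_pos _ _).le
    have hgO : (fun N => ∑ k ∈ Finset.range N, g k) =O[atTop] sc (p + 2) := by
      refine (hIO.add (G_bigO (p + 2))).congr_left fun N => ?_
      unfold G
      rw [← Finset.sum_add_distrib]
    have hgT : Tendsto (fun N => ∑ k ∈ Finset.range N, g k) atTop atTop := by
      refine tendsto_atTop_mono (fun N => ?_) (G_tendsto (p + 2))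
      unfold G
      exact Finset.sum_le_sum fun k _ => le_add_of_nonneg_left (mul_nonneg (In_nonneg _ _) (pw_pos _ _).le)
    have hfg : (fun k => In A (k + 1) ω * W k ω * e2 k) =o[atTop] g := by
      have h1 : (fun k => In A (k + 1) ω * W k ω * e2 k) =O[atTop] fun k => In A (k + 1) ω * e2 k := by
        refine IsBigO.of_bound K (Eventually.of_forall fun k => ?_)
        rw [norm_mul, norm_mul, norm_mul, Real.norm_eq_abs (W k ω)]
        calc ‖In A (k + 1) ω‖ * |W k ω| * ‖e2 k‖ ≤ ‖In A (k + 1) ω‖ * K * ‖e2 k‖ :=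
              mul_le_mul_of_nonneg_right (mul_le_mul_of_nonneg_left (hK k ω) (norm_nonneg _)) (norm_nonneg _)
          _ = _ := by ring
      have h2 : (fun k => In A (k + 1) ω * e2 k) =o[atTop] fun k => In A (k + 1) ω * pw (p + 1) k :=
        (isBigO_refl _ _).mul_isLittleO E2
      have h3 : (fun k => In A (k + 1) ω * pw (p + 1) k) =O[atTop] g := by
        refine IsBigO.of_bound 1 (Eventually.of_forall fun k => ?_)
        rw [Real.norm_eq_abs, Real.norm_eq_abs, abs_of_nonneg (hg0 k), one_mul,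
          abs_of_nonneg (mul_nonneg (In_nonneg _ _) (pw_pos _ _).le)]
        exact le_add_of_nonneg_right (pw_pos _ _).le
      exact (h1.trans_isLittleO h2).trans_isBigO h3
    exact (hfg.sum_range hg0 hgT).trans_isBigO hgO
  -- the fourth bracket
  have b4 : (fun N => ∑ k ∈ Finset.range N, rr Q k * (c * pw 1 k) * W k ω * e1 k) =o[atTop] sc (p + 2) := by
    refine sum_little (p + 2) ?_
    have h1 : (fun k => rr Q k * (c * pw 1 k) * W k ω * e1 k) =O[atTop] fun k => pw 1 k * e1 k := by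
      refine IsBigO.of_bound (|c| * K) (Eventually.of_forall fun k => ?_)
      rw [norm_mul, norm_mul, norm_mul, norm_mul, norm_mul, Real.norm_eq_abs (W k ω), Real.norm_eq_abs (rr Q k), Real.norm_eq_abs c]
      have p1 := norm_nonneg (pw 1 k)
      have p2 := norm_nonneg (e1 k)
      calc |rr Q k| * (|c| * ‖pw 1 k‖) * |W k ω| * ‖e1 k‖ ≤ 1 * (|c| * ‖pw 1 k‖) * K * ‖e1 k‖ := by
            refine mul_le_mul_of_nonneg_right ?_ p2
            exact mul_le_mul (mul_le_mul_of_nonneg_right (rr_le Q k) (by positivity)) (hK k ω) (abs_nonneg _) (by positivity)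
        _ = _ := by ring
    have h2 : (fun k => pw 1 k * e1 k) =o[atTop] fun k => pw 1 k * pw (p + 1) k := (isBigO_refl _ _).mul_isLittleO E1
    refine (h1.trans_isLittleO h2).congr_right fun k => ?_
    rw [pw_mul]
    congr 1
    ring
  refine (((w1.add b2).add w2).add b4).congr_left fun N => ?_
  unfold Sw
  rw [← Finset.sum_add_distrib, ← Finset.sum_add_distrib, ← Finset.sum_add_distrib]
  refine Finset.sum_congr rfl fun k _ => ?_
  have e0 : (A (2 + k + 1)).indicator (fun _ => (1 : ℝ)) ω = In A (k + 3) ω := by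
    unfold In
    rw [show 2 + k + 1 = k + 3 by ring]
  have e0' : (A (0 + k + 1)).indicator (fun _ => (1 : ℝ)) ω = In A (k + 1) ω := by
    unfold In
    rw [zero_add]
  have e00 : dens μ ℱ A (2 + k) ω = d (k + 2) := by
    simp only [hdd]
    rw [add_comm 2 k]
  have e000 : dens μ ℱ A (0 + k) ω = d k := by
    simp only [hdd]
    rw [zero_add]
  rw [e0, e0', e00, e000]
  have key2 : In A (k + 1) ω * W k ω * e2 k = In A (k + 1) ω * W k ω * (d (k + 2) - rr Q k * (c * pw 1 k)) := by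
    by_cases h1 : Nat.Coprime (k + 1) Q
    · by_cases h3 : Nat.Coprime (k + 3) Q
      · rw [hE2 k h3]
        unfold rr
        rw [if_pos ⟨h1, h3⟩, one_mul]
      · rw [hE2' k h3]
        have h4 : d (k + 2) = 0 := wz (k + 2) h3
        unfold rr
        rw [if_neg (fun h => h3 h.2), h4]
        simp
    · rw [In_zero hcop h1]
      simp
  have key4 : rr Q k * (c * pw 1 k) * W k ω * e1 k = rr Q k * (c * pw 1 k) * W k ω * (d k - c * pw 1 k) := by
    by_cases h1 : Nat.Coprime (k + 1) Q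
    · rw [hE1 k h1]
    · unfold rr
      rw [if_neg (fun h => h1 h.1)]
      simp
  rw [key2, key4]
  unfold xx
  have e5 : pw 2 k = pw 1 k * pw 1 k := by rw [pw_mul]
  rw [e5]
  ring

end Pool.Agent.U736.TW
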