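import Mathlib
import Pool.Agent.U736.TW.Prob
import Pool.Agent.U736.TW.Comb

set_option autoImplicit false

/-! # Residues mod 4 of consecutive twins in sequential random models -/

open MeasureTheory Filter Asymptotics
open scoped Topology

namespace Pool.Agent.U736.TW

open Pool.Agent.R528.RM

/-- the first members of the twin pairs of `S` -/
def Twins (S : Set ℕ) : Set ℕ := {n | n ∈ S ∧ n + 2 ∈ S}

lemma cop_add (n Q : ℕ) : Nat.Coprime (n + Q) Q ↔ Nat.Coprime n Q := by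
  rw [Nat.coprime_add_self_left]

lemma rr_per (Q k : ℕ) : rr Q (k + Q) = rr Q k := by
  unfold rr
  have h1 : Nat.Coprime (k + Q + 1) Q ↔ Nat.Coprime (k + 1) Q := by
    rw [show k + Q + 1 = k + 1 + Q by ring]
    exact cop_add _ _
  have h2 : Nat.Coprime (k + Q + 3) Q ↔ Nat.Coprime (k + 3) Q := by
    rw [show k + Q + 3 = k + 3 + Q by ring]
    exact cop_add _ _
  simp only [h1, h2]

lemma chi_add_mul (n m : ℕ) : chi (n + 2 * m) = (-1) ^ m * chi n := by
  induction m with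
  | zero => simp
  | succ m ih =>
    rw [show n + 2 * (m + 1) = n + 2 * m + 2 by ring, chi_add_two, ih, pow_succ]
    ring

lemma chi_anti {Q : ℕ} (h2 : 2 ∣ Q) (h4 : ¬ 4 ∣ Q) (n : ℕ) : chi (n + Q) = - chi n := by
  obtain ⟨m, rfl⟩ := h2
  have hm : Odd m := by
    rw [← Nat.not_even_iff_odd]
    rintro ⟨j, rfl⟩
    exact h4 ⟨j, by ring⟩
  rw [chi_add_mul, hm.neg_one_pow]
  ring

lemma rr_ne {Q k : ℕ} (h : rr Q k ≠ 0) : Nat.Coprime (k + 1) Q ∧ Nat.Coprime (k + 3) Q := by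
  by_contra hc
  apply h
  unfold rr
  rw [if_neg hc]

lemma cop_odd {Q n : ℕ} (h6 : 6 ∣ Q) (h : Nat.Coprime n Q) : n % 2 = 1 := by
  have h1 : Nat.Coprime n 2 := h.coprime_dvd_right ((by norm_num : 2 ∣ 6).trans h6)
  rw [Nat.coprime_two_right] at h1
  exact Nat.odd_iff.1 h1

lemma cop_three {Q n : ℕ} (h6 : 6 ∣ Q) (h : Nat.Coprime n Q) : n % 3 ≠ 0 := by
  have h1 : Nat.Coprime n 3 := h.coprime_dvd_right ((by norm_num : 3 ∣ 6).trans h6)
  intro h2
  have h3 : 3 ∣ n := Nat.dvd_of_mod_eq_zero h2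
  have := Nat.Coprime.eq_one_of_dvd h1.symm h3
  norm_num at this

variable {Ω : Type} {m0 : MeasurableSpace Ω} {μ : Measure Ω} [IsProbabilityMeasure μ]
  {ℱ : Filtration ℕ m0} {A : ℕ → Set Ω}

lemma mem_cop {Q : ℕ} (hcop : ∀ n, ¬ Nat.Coprime n Q → A n = ∅) {ω : Ω} {n : ℕ} (h : ω ∈ A n) : Nat.Coprime n Q := by
  by_contra hc
  rw [hcop n hc] at h
  exact h

lemma ind_eq (ω : Ω) (k : ℕ) : ind (Twins {n | ω ∈ A n}) k = xx A k ω := by
  unfold ind xx In Twins
  by_cases h1 : ω ∈ A (k + 1)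
  · by_cases h3 : ω ∈ A (k + 3)
    · rw [if_pos (show k + 1 ∈ {n : ℕ | n ∈ {n | ω ∈ A n} ∧ n + 2 ∈ {n | ω ∈ A n}} from ⟨h1, h3⟩),
        Set.indicator_of_mem h1, Set.indicator_of_mem h3, one_mul]
    · rw [if_neg (show ¬ k + 1 ∈ {n : ℕ | n ∈ {n | ω ∈ A n} ∧ n + 2 ∈ {n | ω ∈ A n}} from fun h => h3 h.2),
        Set.indicator_of_notMem h3, mul_zero]
  · rw [if_neg (show ¬ k + 1 ∈ {n : ℕ | n ∈ {n | ω ∈ A n} ∧ n + 2 ∈ {n | ω ∈ A n}} from fun h => h1 h.1),
        Set.indicator_of_notMem h1, zero_mul]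

lemma st_meas (hA : ∀ n, MeasurableSet[ℱ n] (A n)) (k : ℕ) :
    StronglyMeasurable[ℱ (k + 2)] (fun ω => st (Twins {n | ω ∈ A n}) k) := by
  induction k with
  | zero =>
    have : (fun ω : Ω => st (Twins {n | ω ∈ A n}) 0) = fun _ => (0 : ℝ) := rfl
    rw [this]
    exact stronglyMeasurable_const
  | succ k ih =>
    have h1 : (fun ω : Ω => st (Twins {n | ω ∈ A n}) (k + 1)) =
        (fun ω => xx A k ω * chi (k + 1) + (1 - xx A k ω) * st (Twins {n | ω ∈ A n}) k) := by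
      funext ω
      rw [st, ind_eq]
    have hx : StronglyMeasurable[ℱ (k + 1 + 2)] (xx A k) := by
      have g1 : StronglyMeasurable[ℱ (k + 1 + 2)] (In A (k + 1)) := In_meas hA (by omega)
      have g2 : StronglyMeasurable[ℱ (k + 1 + 2)] (In A (k + 3)) := In_meas hA (by omega)
      exact @StronglyMeasurable.mul _ _ _ _ (ℱ (k + 1 + 2)) _ _ _ g1 g2
    have hs : StronglyMeasurable[ℱ (k + 1 + 2)] (fun ω => st (Twins {n | ω ∈ A n}) k) := ih.mono (ℱ.mono (by omega))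
    have h1x : StronglyMeasurable[ℱ (k + 1 + 2)] (fun ω => 1 - xx A k ω) :=
      @StronglyMeasurable.sub _ _ _ _ (ℱ (k + 1 + 2)) _ _ _ stronglyMeasurable_const hx
    rw [h1]
    exact @StronglyMeasurable.add _ _ _ _ (ℱ (k + 1 + 2)) _ _ _ (hx.mul_const _)
      (@StronglyMeasurable.mul _ _ _ _ (ℱ (k + 1 + 2)) _ _ _ h1x hs)

lemma st_meas' (hA : ∀ n, MeasurableSet[ℱ n] (A n)) (k : ℕ) :
    StronglyMeasurable[ℱ k] (fun ω => st (Twins {n | ω ∈ A n}) (k - 2)) := by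
  rcases Nat.lt_or_ge k 2 with h | h
  · rw [show k - 2 = 0 by omega]
    have : (fun ω : Ω => st (Twins {n | ω ∈ A n}) 0) = fun _ => (0 : ℝ) := rfl
    rw [this]
    exact stronglyMeasurable_const
  · have := st_meas (ℱ := ℱ) hA (k - 2)
    rwa [show k - 2 + 2 = k by omega] at this

lemma xx_ne {Q : ℕ} (hcop : ∀ n, ¬ Nat.Coprime n Q → A n = ∅) {ω : Ω} {k : ℕ} (h : xx A k ω ≠ 0) :
    Nat.Coprime (k + 1) Q ∧ Nat.Coprime (k + 3) Q := by
  unfold xx at h
  constructor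
  · by_contra hc
    rw [In_zero hcop hc, zero_mul] at h
    exact h rfl
  · by_contra hc
    rw [In_zero hcop hc, mul_zero] at h
    exact h rfl

lemma tw_odd {Q : ℕ} (h6 : 6 ∣ Q) (hcop : ∀ n, ¬ Nat.Coprime n Q → A n = ∅) (ω : Ω) :
    ∀ n ∈ Twins {n | ω ∈ A n}, n % 2 = 1 := fun _ hn => cop_odd h6 (mem_cop hcop hn.1)

lemma st_back {Q : ℕ} (h6 : 6 ∣ Q) (hcop : ∀ n, ¬ Nat.Coprime n Q → A n = ∅) (ω : Ω) {k : ℕ}
    (h : Nat.Coprime (k + 1) Q ∧ Nat.Coprime (k + 3) Q) :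
    st (Twins {n | ω ∈ A n}) k = st (Twins {n | ω ∈ A n}) (k - 2) := by
  have h1 := cop_odd h6 h.1
  have h2 := cop_three h6 h.1
  have h3 := cop_three h6 h.2
  obtain ⟨j, rfl⟩ : ∃ j, k = j + 2 := ⟨k - 2, by omega⟩
  have e1 : xx A (j + 1) ω = 0 := by
    by_contra hc
    have := cop_odd h6 (xx_ne hcop hc).1
    omega
  have e2 : xx A j ω = 0 := by
    by_contra hc
    have h5 := cop_three h6 (xx_ne hcop hc).1
    have h7 : j % 3 = 0 ∨ j % 3 = 1 ∨ j % 3 = 2 := by omega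
    rcases h7 with h7 | h7 | h7
    · exact h2 (by omega)
    · exact h3 (by omega)
    · exact h5 (by omega)
  rw [Nat.add_sub_cancel, show j + 2 = (j + 1) + 1 by ring, st, ind_eq, e1, st, ind_eq, e2]
  ring

/-- the law of consecutive twins -/
theorem twins_law (hA : ∀ n, MeasurableSet[ℱ n] (A n)) {Q : ℕ} (h6 : 6 ∣ Q) (h4 : ¬ 4 ∣ Q)
    (hcop : ∀ n, ¬ Nat.Coprime n Q → A n = ∅) {c : ℝ} (hc : 0 < c) {p : ℕ} (hp : p ≤ 2)
    (hd : ∀ᵐ ω ∂μ, Tendsto (fun n : ℕ => (dens μ ℱ A n ω * Real.log n - c) * Real.log n ^ p)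
      (atTop ⊓ 𝓟 {n : ℕ | Nat.Coprime (n + 1) Q}) (𝓝 0)) :
    ∀ᵐ ω ∂μ, (Twins {n | ω ∈ A n}).Infinite ∧ ∀ a b : ℕ, (a = 1 ∨ a = 3) → (b = 1 ∨ b = 3) →
      Tendsto (fun x : ℕ => (cntPair (Twins {n | ω ∈ A n}) a b x : ℝ) / cnt (Twins {n | ω ∈ A n}) a x) atTop (𝓝 (1 / 2)) ∧
      (2 ≤ p → Tendsto (fun x : ℕ => ((cntPair (Twins {n | ω ∈ A n}) a b x : ℝ) / cnt (Twins {n | ω ∈ A n}) a x - 1 / 2) *
        Lg x ^ 2) atTop (𝓝 (-(sg a * sg b * c ^ 2) / 4))) := by
  have hQ : 0 < Q := Nat.pos_of_ne_zero fun h => h4 (h ▸ dvd_zero 4)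
  have h2 : 2 ∣ Q := (by norm_num : 2 ∣ 6).trans h6
  -- the primitives
  obtain ⟨C, hC, hCa, K1, hK1⟩ := anti_prim (g := fun k => rr Q k * chi (k + 1)) hQ (fun k => by
    rw [rr_per, show k + Q + 1 = k + 1 + Q by ring, chi_anti h2 h4]
    ring)
  obtain ⟨B, hB, hBa, K2, hK2⟩ := anti_prim (g := fun k => rr Q k * C (k + 1)) hQ (fun k => by
    rw [rr_per, show k + Q + 1 = k + 1 + Q by ring, hCa]
    ring)
  set K := max K1 K2 with hK
  have hCb : ∀ k, |C k| ≤ K := fun k => (hK1 k).trans (le_max_left _ _)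
  have hBb : ∀ k, |B k| ≤ K := fun k => (hK2 k).trans (le_max_right _ _)
  have hK0 : 0 ≤ K := (abs_nonneg _).trans (hCb 0)
  -- the density of places
  set κ : ℝ := (∑ i ∈ Finset.range Q, rr Q i) / Q with hκ
  have hrr0 : ∀ i, 0 ≤ rr Q i := fun i => by
    unfold rr
    split_ifs <;> simp
  have hκ0 : 0 < κ := by
    have hQ6 : 6 ≤ Q := Nat.le_of_dvd hQ h6
    have h1 : rr Q (Q - 2) = 1 := by
      unfold rr
      rw [if_pos]
      constructor
      · rw [show Q - 2 + 1 = Q - 1 by omega]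
        exact (Nat.coprime_self_sub_left (by omega : 1 ≤ Q)).2 (Nat.coprime_one_left Q)
      · rw [show Q - 2 + 3 = 1 + Q by omega]
        exact (cop_add 1 Q).2 (Nat.coprime_one_left Q)
    have h3 : rr Q (Q - 2) ≤ ∑ i ∈ Finset.range Q, rr Q i :=
      Finset.single_le_sum (fun i _ => hrr0 i) (Finset.mem_range.2 (by omega))
    have h5 : (0 : ℝ) < Q := by exact_mod_cast hQ
    have h6 : 0 < ∑ i ∈ Finset.range Q, rr Q i := by linarith
    positivity
  have hl2 := per_lim hQ (rr_per Q) 2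
  have hl4 := per_lim hQ (rr_per Q) 4
  rw [← hκ] at hl2 hl4
  -- the five sums
  have hst1 : ∀ (k : ℕ) (ω : Ω), |st (Twins {n | ω ∈ A n}) k| ≤ 1 := fun k ω => st_abs (tw_odd h6 hcop ω) k
  have S1 := twin_lln (μ := μ) (ℱ := ℱ) hA hcop hd (fun _ _ => 1) (fun k => stronglyMeasurable_const) (K := 1)
    (fun k ω => by simp)
  have S2 := twin_lln (μ := μ) (ℱ := ℱ) hA hcop hd (fun k _ => chi (k + 1)) (fun k => stronglyMeasurable_const) (K := 1)
    (fun k ω => chi_abs _)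
  have S3 := twin_lln (μ := μ) (ℱ := ℱ) hA hcop hd (fun k ω => chi (k + 1) * st (Twins {n | ω ∈ A n}) (k - 2))
    (fun k => (st_meas' hA k).const_mul _) (K := 1 * 1)
    (fun k ω => by
      rw [abs_mul]
      exact mul_le_mul (chi_abs _) (hst1 _ _) (abs_nonneg _) zero_le_one)
  have S4 := twin_lln (μ := μ) (ℱ := ℱ) hA hcop hd
    (fun k ω => pw 2 k * C (k + 1) * (chi (k + 1) - st (Twins {n | ω ∈ A n}) (k - 2)))
    (fun k => by
      have g1 : StronglyMeasurable[ℱ k] (fun ω : Ω => chi (k + 1) - st (Twins {n | ω ∈ A n}) (k - 2)) :=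
        @StronglyMeasurable.sub _ _ _ _ (ℱ k) _ _ _ stronglyMeasurable_const (st_meas' hA k)
      exact g1.const_mul _) (K := 1 * K * 2)
    (fun k ω => by
      have e1 : |chi (k + 1) - st (Twins {n | ω ∈ A n}) (k - 2)| ≤ 2 := by
        refine (abs_sub _ _).trans ?_
        linarith [chi_abs (k + 1), hst1 (k - 2) ω]
      rw [abs_mul, abs_mul, abs_of_pos (pw_pos 2 k)]
      refine mul_le_mul (mul_le_mul (pw_le_one 2 k) (hCb _) (abs_nonneg _) zero_le_one) e1 (abs_nonneg _) (by positivity))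
  have S5 := twin_lln (μ := μ) (ℱ := ℱ) hA hcop hd (fun k _ => pw 4 k) (fun k => stronglyMeasurable_const) (K := 1)
    (fun k ω => by rw [abs_of_pos (pw_pos _ _)]; exact pw_le_one _ _)
  filter_upwards [S1, S2, S3, S4, S5] with ω s1 s2 s3 s4 s5
  set T : Set ℕ := Twins {n | ω ∈ A n} with hT
  have hodd : ∀ n ∈ T, n % 2 = 1 := tw_odd h6 hcop ω
  -- moving the state
  have hmove : ∀ k (f : ℝ → ℝ), (xx A k ω - rr Q k * (c ^ 2 * pw 2 k)) * f (st T (k - 2)) =
      (xx A k ω - rr Q k * (c ^ 2 * pw 2 k)) * f (st T k) := by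
    intro k f
    by_cases hk : Nat.Coprime (k + 1) Q ∧ Nat.Coprime (k + 3) Q
    · rw [hT, st_back h6 hcop ω hk]
    · have e1 : xx A k ω = 0 := by
        by_contra h
        exact hk (xx_ne hcop h)
      have e2 : rr Q k = 0 := by
        by_contra h
        exact hk (rr_ne h)
      rw [e1, e2]
      simp
  have s3' : (fun N => ∑ k ∈ Finset.range N, (xx A k ω - rr Q k * (c ^ 2 * pw 2 k)) * (chi (k + 1) * st T k)) =o[atTop] sc (p + 2) :=
    s3.congr_left fun N => Finset.sum_congr rfl fun k _ => hmove k (fun z => chi (k + 1) * z)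
  have s4' : (fun N => ∑ k ∈ Finset.range N, (xx A k ω - rr Q k * (c ^ 2 * pw 2 k)) * (pw 2 k * C (k + 1) * (chi (k + 1) - st T k)))
      =o[atTop] sc (p + 2) :=
    s4.congr_left fun N => Finset.sum_congr rfl fun k _ => hmove k (fun z => pw 2 k * C (k + 1) * (chi (k + 1) - z))
  have hcore := core p hp c (x := fun k => xx A k ω) (r := rr Q) (χ := fun k => chi (k + 1)) (t := st T) (C := C) (B := B) (K := K)
    (fun k => mul_nonneg (In_nonneg _ _) (In_nonneg _ _)) (fun k => chi_abs _)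
    (fun k => by
      by_cases h : rr Q k = 0
      · rw [h, zero_mul]
      · rw [chi_odd (cop_odd h6 (rr_ne h).1), mul_one])
    (rr_sq Q) (rr_le Q) (st_abs hodd)
    (fun k => by
      rw [st_step, hT, ind_eq])
    hC hCb hB hBb s2 s3' s4' s5
  obtain ⟨cF, cD⟩ := hcore
  have hN : (fun N => ∑ k ∈ Finset.range N, xx A k ω - c ^ 2 * ∑ k ∈ Finset.range N, rr Q k * pw 2 k) =o[atTop] sc (p + 2) := by
    refine s1.congr_left fun N => ?_
    rw [Finset.mul_sum, ← Finset.sum_sub_distrib]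
    refine Finset.sum_congr rfl fun k _ => ?_
    ring
  have hxi : ∀ k, ind T k = xx A k ω := fun k => ind_eq ω k
  have hratio : ∀ a b : ℕ, (a = 1 ∨ a = 3) → (b = 1 ∨ b = 3) → _ := fun a b ha hb =>
    ratio p hc hκ0 (sa := sg a) (sb := sg b) (Nt := fun N => ∑ k ∈ Finset.range N, xx A k ω)
      (F := fun N => ∑ k ∈ Finset.range N, xx A k ω * chi (k + 1))
      (D := fun N => ∑ k ∈ Finset.range N, xx A k ω * (chi (k + 1) * st T k))
      (S2 := fun N => ∑ k ∈ Finset.range N, rr Q k * pw 2 k) (S4 := fun N => ∑ k ∈ Finset.range N, rr Q k * pw 4 k)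
      (cn := fun N => (cnt T a N : ℝ)) (pr := fun N => (cntPair T a b N : ℝ)) (M := 2)
      hl2 hl4 hN cF cD
      (fun N => by
        have := cnt_eq hodd ha N
        simp only [hxi] at this
        exact this)
      (fun N => by
        have := cntPair_formula hodd ha hb N
        simp only [hxi] at this
        exact this)
  refine ⟨?_, fun a b ha hb => (hratio a b ha hb).2⟩
  -- infinitely many twins
  have hinf := (hratio 1 1 (Or.inl rfl) (Or.inl rfl)).1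
  intro hfin
  obtain ⟨M, hM⟩ := hfin.bddAbove
  have h1 : ∀ N, ∑ k ∈ Finset.range N, xx A k ω ≤ M := by
    intro N
    have h2 : ∀ k ∈ Finset.range N, xx A k ω ≤ if k < M then 1 else 0 := by
      intro k _
      rw [← hxi]
      rcases ind_cases T k with ⟨g1, g2⟩ | ⟨g1, g2⟩
      · have := hM g1
        rw [g2, if_pos (by omega)]
      · rw [g2]
        split_ifs <;> norm_num
    refine (Finset.sum_le_sum h2).trans ?_
    rw [Finset.sum_boole]
    have b2 : (Finset.filter (fun k => k < M) (Finset.range N)) ⊆ Finset.range M := by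
      intro k hk
      exact Finset.mem_range.2 (Finset.mem_filter.1 hk).2
    have b3 := Finset.card_le_card b2
    rw [Finset.card_range] at b3
    exact_mod_cast b3
  obtain ⟨N, hN⟩ := (hinf.eventually_gt_atTop (M : ℝ)).exists
  exact absurd (h1 N) (not_le.2 hN)

end Pool.Agent.U736.TW
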